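import Pool.Agent.Run7.h506.TA.Fin

/-!
Project TA: the fibre Hessian as a second derivative along lines.
-/

set_option autoImplicit false

namespace Pool.Agent.Run7.h506.TA

open Set Filter Topology
open scoped ContDiff

variable {m : ℕ}

lemma line_hd (v w : X m) (x : X m) (t s : ℝ) :
    HasDerivAt (fun s : ℝ => ((x, v + s • w, t) : X m × X m × ℝ)) (0, w, 0) s := by
  have h1 : HasDerivAt (fun s : ℝ => v + s • w) w s := by
    simpa using ((hasDerivAt_id s).smul_const w).const_add v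
  exact (hasDerivAt_const s x).prodMk (h1.prodMk (hasDerivAt_const s t))

lemma otube_open (ε : ℝ) : IsOpen {q : X m × X m × ℝ | q.1 ∈ Tube m ε} :=
  (tube_open m ε).preimage continuous_fst

theorem hess_eq {k : ℕ∞} (hk : 2 ≤ k) {ε : ℝ} {L : X m → X m → ℝ → ℝ}
    (h : ContDiffOn ℝ k (U L) {q | q.1 ∈ Tube m ε}) {x v : X m} {t : ℝ} (hx : x ∈ Tube m ε)
    (w : X m) : deriv (deriv (fun s : ℝ => L x (v + s • w) t)) 0 = HS (U L) (x, v, t) w := by
  have hk2 : (2 : WithTop ℕ∞) ≤ (k : WithTop ℕ∞) := WithTop.coe_le_coe.2 hk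
  have h2 : ∀ q : X m × X m × ℝ, q.1 ∈ Tube m ε → ContDiffAt ℝ 2 (U L) q := fun q hq =>
    (h.contDiffAt ((otube_open ε).mem_nhds hq)).of_le hk2
  have h3 : deriv (fun s : ℝ => L x (v + s • w) t)
      = fun s => fderiv ℝ (U L) (x, v + s • w, t) (0, w, 0) := by
    funext s
    have h4 := ((h2 (x, v + s • w, t) hx).differentiableAt (by norm_num)).hasFDerivAt
    exact (h4.comp_hasDerivAt s (line_hd v w x t s)).deriv
  rw [h3]
  have h5 : ContDiffAt ℝ 1 (fderiv ℝ (U L)) (x, v, t) :=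
    (h2 (x, v, t) hx).fderiv_right (by norm_num)
  have h6 : HasFDerivAt (fderiv ℝ (U L)) (fderiv ℝ (fderiv ℝ (U L)) (x, v, t))
      (x, v + (0 : ℝ) • w, t) := by
    rw [zero_smul, add_zero]
    exact (h5.differentiableAt (by norm_num)).hasFDerivAt
  have h7 := (ContinuousLinearMap.apply ℝ ℝ ((0, w, 0) : X m × X m × ℝ)).hasFDerivAt.comp
    (x, v + (0 : ℝ) • w, t) h6
  have h8 := h7.comp_hasDerivAt (0 : ℝ) (line_hd v w x t 0)
  exact h8.deriv

end Pool.Agent.Run7.h506.TA
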