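import Pool.Agent.W774.TL.Stm

/-!
# Project TA: dense accelerators in a thin tube, hence on every manifold (MP_6acca1_an)

Final statement: `S_MAIN` at the end of this file.  Every piece is a closed Prop `S_XXX` with its
complete proof in the doc string.  Please prove
`theorem t_XXX : (S_A → S_B → ...) → S_XXX` in `Pool/Agent/Run7/<you>/TA/XXX.lean`, importing
`Pool.Agent.Run7.h506.TA.Stm` and whatever you need of the start tree.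

Notation of the start library `Pool/Agent/W774/TL/Stm.lean`: `h`, `hp`, `fo` (the one-dimensional
accelerator, its `p`-derivative and minus its `x`-derivative), `sg`, `yy`, `R1`, `R3`, `Lv`, `Lx`,
`Df`, `PerL`.
-/

set_option autoImplicit false

namespace Pool.Agent.Run7.h506.TA

open Pool.Agent.W774.TL Set Filter Topology
open scoped ContDiff

abbrev X (m : ℕ) : Type := Fin (m + 1) → ℝ

/-! ## 1. The robust one-step lemma (one-dimensional) -/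

/-- as `Sys` of the library, with much larger errors: `10⁻⁹` for the velocity and `10⁻⁹ A` for the
force. -/
def Sys2 (A : ℝ) (a p a' p' : ℝ → ℝ) (l r : ℝ) : Prop :=
  ∀ τ ∈ Icc l r, HasDerivAt a (a' τ) τ ∧ HasDerivAt p (p' τ) τ ∧
    ((R1 A τ (a τ) (p τ) ∨ R3 A τ (a τ) (p τ)) →
      |a' τ - sg (yy A τ (a τ) (p τ))| ≤ 1 / 10 ^ 9 ∧
      |p' τ - A * ((1 - sg (yy A τ (a τ) (p τ))) * Co (a τ)
        + 3 * sg (yy A τ (a τ) (p τ)) * Co (a τ - τ))| ≤ A / 10 ^ 9)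

/-- **J1.** Copy of `Pool/Agent/W705/TL/J1.lean` (260 lines): the proof there uses the errors only
through `1 / A ^ 2 ≤ 10⁻⁹` and `1 + G ≤ A / 10⁹`. -/
def S_J1 : Prop := ∃ A0 : ℝ, ∀ A : ℝ, A0 ≤ A → ∀ a p a' p' : ℝ → ℝ,
  Sys2 A a p a' p' (-1 / 2) (-1 / 500) →
  |a (-1 / 2)| ≤ 1 / 1000 → |p (-1 / 2) - A| ≤ A / 1000 →
  (∀ τ ∈ Icc (-1 / 2 : ℝ) (-1 / 500), R1 A τ (a τ) (p τ)) ∧
  |a (-1 / 500) - a (-1 / 2)| ≤ 1 / 50000 ∧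
  |p (-1 / 500) - p (-1 / 2) - A * (1 / 2 - 1 / 500)| ≤ A / 50000

/-- **J2.** Copy of `Pool/Agent/W775/TL/J2.lean` (427 lines): the errors are used there only through
the lemma `norm_est`, whose conclusions `|a' - s| ≤ 10⁻⁷`, `|p'/A - c| ≤ 10⁻⁷` follow from `Sys2`. -/
def S_J2 : Prop := ∃ A0 : ℝ, ∀ A : ℝ, A0 ≤ A → ∀ a p a' p' : ℝ → ℝ,
  Sys2 A a p a' p' (-1 / 500) (1 / 500) →
  ∀ a1 Q1 : ℝ, a (-1 / 500) = a1 → p (-1 / 500) = A * (3 / 2 - 1 / 500 + Q1) →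
  |a1| ≤ 51 / 50000 → |Q1| ≤ 51 / 50000 →
  (∀ τ ∈ Icc (-1 / 500 : ℝ) (1 / 500), R1 A τ (a τ) (p τ)) ∧
  |a (1 / 500) - 1 / 500 - (2 * a1 + Q1) / 4| ≤ 1 / 50000 ∧
  |p (1 / 500) - A * (3 / 2 + 3 / 500 + (3 / 2 * Q1 - a1))| ≤ A / 50000

/-- **J3.** Copy of `Pool/Agent/W103/TL/J3.lean` (300 lines): the errors are used there only through
the lemma `big` (`1/A² + exp(-A/1000) ≤ 10⁻⁵` and `1 + G + 4 A exp(-A/1000) ≤ A/10⁵`). -/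
def S_J3 : Prop := ∃ A0 : ℝ, ∀ A : ℝ, A0 ≤ A → ∀ a p a' p' : ℝ → ℝ,
  Sys2 A a p a' p' (1 / 500) (1 / 2) →
  |a (1 / 500) - 1 / 500| ≤ 8 / 10000 → |p (1 / 500) - A * (3 / 2 + 3 / 500)| ≤ 26 / 10000 * A →
  (∀ τ ∈ Icc (1 / 500 : ℝ) (1 / 2), R3 A τ (a τ) (p τ)) ∧
  |(a (1 / 2) - 1 / 2) - (a (1 / 500) - 1 / 500)| ≤ 1 / 50000 ∧
  |p (1 / 2) - p (1 / 500) - 3 * A * (1 / 2 - 1 / 500)| ≤ 3 * A / 50000

/-- **STEP** (from J1, J2, J3).  Copy of `Pool/Agent/W700/TL/STEP.lean` (81 lines). -/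
def S_STEP : Prop := ∃ A0 : ℝ, ∀ A : ℝ, A0 ≤ A → ∀ a p a' p' : ℝ → ℝ,
  Sys2 A a p a' p' (-1 / 2) (1 / 2) →
  |a (-1 / 2)| ≤ 1 / 1000 → |p (-1 / 2) - A| ≤ A / 1000 →
  (∀ τ ∈ Icc (-1 / 2 : ℝ) (1 / 2), R1 A τ (a τ) (p τ) ∨ R3 A τ (a τ) (p τ)) ∧
  |a (1 / 2) - 1 / 2| ≤ 1 / 1000 ∧ |p (1 / 2) - 3 * A| ≤ 3 * A / 1000

/-- **POSF.** In the two regions the force `fo` is at least `3^k / 4` (and `p ≥ 3^k / 2`).
By `two2` (`Pool/Agent/TH217/TL/Two2.lean`; or `P_TWO`) `fo` is up to an error `1` equal to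
`A ((1 - s) Co a + 3 s Co (a - τ))`, `A = 3^k`, `s = sg y`, `y = yy A τ a p`, for `k ≥ K0`.  Recall
`S u = sin (2πu)/(2π)`, `Co u = cos (2πu)`, `y = p - A (3/2 + 3 S(a-τ) - S(a))`, `|S| ≤ 1/6`.

Region `R1`: `-1/2 ≤ τ ≤ 1/100`, `|a| ≤ 1/100`, `p = A (3/2 + τ + θ)`, `|θ| ≤ 1/50`, so
`y/A = τ + θ - 3 S(a-τ) + S(a)`, and `S(a-τ) ≥ -1/100` (as `S ≥ 0` on `[0,1/2]` and `S` is
1-Lipschitz), `|S a| ≤ 1/100`; so `y ≤ A (τ + 6/100)`.  If `τ ≤ -7/100` then `y ≤ -A/100`, so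
`s ≤ exp(-A/100) ≤ 1/100` for large `A` and `(1-s) Co a + 3 s Co(a-τ) ≥ (1-s)·0.99 - 3 s ≥ 1/2`.
If `τ ≥ -7/100` then `|a-τ| ≤ 8/100` and `Co a ≥ 1/2`, `Co(a-τ) ≥ 1/2` (`cos u ≥ 1 - u²/2`), so the
combination is `≥ 1/2`.
Region `R3`: `-1/100 ≤ τ ≤ 1/2`, `|a-τ| ≤ 1/100`, `p = A (3/2 + 3τ + θ)`, so
`y/A = 3τ + θ - 3 S(a-τ) + S(a) ≥ 3τ - 2/100 - 3/100 - 2/100`.  If `τ ≥ 3/100` then `y ≥ A/50`,
`1 - s ≤ exp(-A/50) ≤ 1/100` and the combination is `≥ -(1-s) + 3 s·0.99 ≥ 1/2`.  If `τ ≤ 3/100` then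
`|a| ≤ 4/100`, `|a-τ| ≤ 1/100` and both cosines are `≥ 1/2`.
So `fo ≥ A/2 - 1 ≥ A/4` for large `A`.  Finally `p ≥ A (3/2 - 1/2 - 1/50) ≥ A/2` in `R1` and
`p ≥ A (3/2 - 3/100 - 1/50) ≥ A/2` in `R3`. -/
def S_POSF : Prop := ∃ K0 : ℕ, ∀ (k : ℕ), K0 ≤ k → ∀ (N : ℤ) (τ a p : ℝ),
  (R1 (3 ^ k) τ a p ∨ R3 (3 ^ k) τ a p) →
    (3 : ℝ) ^ k / 4 ≤ fo (a + k * (τ + (k + 1)) + N) p (τ + (k + 1)) ∧ (3 : ℝ) ^ k / 2 ≤ p

/-- the box at the beginning of level `k`. -/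
def Box (x p : ℝ → ℝ) (k : ℕ) (N : ℤ) : Prop :=
  |x (k + 1 / 2) - k * (k + 1 / 2) - N| ≤ 1 / 1000 ∧ |p (k + 1 / 2) - 3 ^ k| ≤ 3 ^ k / 1000

/-- **LVL** (from STEP, POSF).  One level for approximate solutions, the error bounds being known only
where `p ≥ 3^k/2`.  Proof: as `step2` in `Pool/Agent/TH217/TL/Step2.lean` (lines 21-137): put
`a τ = x (τ+(k+1)) - k (τ+(k+1)) - N`, `pp τ = p (τ + (k+1))`; in the regions `p ≥ 3^k/2` by POSF, so by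
`two2` (errors `1/(2·9^k)` and `1`) and the hypotheses (errors `10⁻¹⁰`, `3^k/10¹⁰`) the pair satisfies
`Sys2 (3^k)` on `[-1/2,1/2]` for large `k`.  STEP gives the regions and the next box
(`x(k+3/2) - (k+1)(k+3/2) - (N - (k+1)) = a(1/2) - 1/2`, see step2).  In the regions
`x' = k + a' ≥ k - 10⁻⁹ ≥ k - 1` since `sg ≥ 0`; `fo` and `p` are bounded below by POSF. -/
def S_LVL : Prop := ∃ K0 : ℕ, ∀ k : ℕ, K0 ≤ k → ∀ x p x' p' : ℝ → ℝ,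
  (∀ t ∈ Icc ((k : ℝ) + 1 / 2) (k + 3 / 2), HasDerivAt x (x' t) t ∧ HasDerivAt p (p' t) t ∧
    ((3 : ℝ) ^ k / 2 ≤ p t → |x' t - hp (x t) (p t) t| ≤ 1 / 10 ^ 10 ∧
      |p' t - fo (x t) (p t) t| ≤ 3 ^ k / 10 ^ 10)) →
  ∀ N : ℤ, Box x p k N →
    (∀ t ∈ Icc ((k : ℝ) + 1 / 2) (k + 3 / 2), (k : ℝ) - 1 ≤ x' t ∧ (3 : ℝ) ^ k / 2 ≤ p t ∧
      (3 : ℝ) ^ k / 4 ≤ fo (x t) (p t) t) ∧
    Box x p (k + 1) (N - (k + 1))

/-- **STOP** (from LVL).  Approximate solutions known up to a time `T` only, which may be in the middle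
of a level.  Proof.  Given `G` choose `k0` larger than the `K0` of LVL and such that
`G ≤ 3^k0/10¹⁰`.  Extend the solution beyond `T`: let `α = x' T - hp (x T) (p T) T`,
`β = p' T - fo (x T) (p T) T` and let `(x̃, p̃)` be the solution with `x̃ T = x T`, `p̃ T = p T`,
`x̃' = hp + α`, `p̃' = fo + β` (`ext_sol` in `Pool/Agent/TH217/TL/Step2.lean`); glue `(x,p)` on `t ≤ T` with
`(x̃,p̃)` on `t ≥ T` (`glue_sol` in `Pool/Agent/TH217/TL/Esc.lean`, or directly: the one-sided derivatives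
at `T` agree).  CAREFUL: the bounds for `α`, `β` are known only if `3^k1/2 ≤ p T`.  So argue by
contradiction/infimum or, simpler, in two steps: (1) if `3^k1/2 ≤ p T` use `α`, `β`; then the glued
functions satisfy the hypotheses of LVL at every level `k ≥ k1` (after `T` with constant errors
`|α| ≤ 10⁻¹⁰`, `|β| ≤ G`), so by induction on the level (start: `Box x p k1 N`) the conclusions hold on
`[k1+1/2, T]`.  (2) In general let `T' ≤ T` be the supremum of the `t` such that `p ≥ 3^k1/2` on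
`[k1+1/2, t]` (at the beginning `p ≥ (1-1/1000) 3^k1 > 3^k1/2`); by (1) with `T'` (closedness gives
`p T' ≥ 3^k1/2`) all conclusions hold on `[k1+1/2,T']`; in particular if `T' < T`, then `T'` is not the
start, `p' T' ≥ fo - G ≥ 3^k1/4 - G > 0` at `T'`, so `p > p T' ≥ 3^k1/2` just after `T'`, contradiction
with the choice of `T'`.  For `t` in level `k` (`k = ⌊t - 1/2⌋₊`) `t - 5/2 ≤ k - 1 ≤ x' t` and
`3^(t - 3/2) ≤ 3^k`. -/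
def S_STOP : Prop := ∀ G : ℝ, 0 ≤ G → ∃ k0 : ℕ, ∀ k1 : ℕ, k0 ≤ k1 → ∀ T : ℝ, (k1 : ℝ) + 1 / 2 ≤ T →
  ∀ x p x' p' : ℝ → ℝ,
  (∀ t ∈ Icc ((k1 : ℝ) + 1 / 2) T, HasDerivAt x (x' t) t ∧ HasDerivAt p (p' t) t ∧
    ((3 : ℝ) ^ k1 / 2 ≤ p t → |x' t - hp (x t) (p t) t| ≤ 1 / 10 ^ 10 ∧
      |p' t - fo (x t) (p t) t| ≤ G)) →
  ∀ N : ℤ, Box x p k1 N →
    ∀ t ∈ Icc ((k1 : ℝ) + 1 / 2) T, t - 5 / 2 ≤ x' t ∧ (3 : ℝ) ^ (t - 3 / 2 : ℝ) / 2 ≤ p t ∧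
      (3 : ℝ) ^ k1 / 4 ≤ fo (x t) (p t) t

/-! ## 2. The Hamiltonian with a transversal well -/

/-- the strength of the well: `c (1 + p²)^(1/8)`. -/
noncomputable def K (c p : ℝ) : ℝ := c * (1 + p ^ 2) ^ (1 / 8 : ℝ)

noncomputable def K1 (c p : ℝ) : ℝ := c / 4 * p * (1 + p ^ 2) ^ (-(7 / 8) : ℝ)

noncomputable def K2 (c p : ℝ) : ℝ :=
  c / 4 * (1 + p ^ 2) ^ (-(15 / 8) : ℝ) * (1 - 3 / 4 * p ^ 2)

/-- **KF.** Elementary facts on `K c`.  (`K1 c p ≤ c p^(-3/4)` for `p ≥ 1`: `p (1+p²)^(-7/8) ≤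
p·p^(-7/4)`; `|K1| ≤ c`: `|p| ≤ (1+p²)^(1/2) ≤ (1+p²)^(7/8)`; `K c p ≥ c p^(1/4)`: `(1+p²)^(1/8) ≥
(p²)^(1/8)`; `K2 ≤ c/4` and `K2 ≤ 0` for `|p| ≥ 2` from the sign of `1 - 3p²/4`.) -/
def S_KF : Prop := ∀ c : ℝ, 0 < c → ContDiff ℝ ∞ (K c) ∧ ∀ p : ℝ,
  HasDerivAt (K c) (K1 c p) p ∧ HasDerivAt (K1 c) (K2 c p) p ∧ |K1 c p| ≤ c ∧
  (0 ≤ p → 0 ≤ K1 c p) ∧ (1 ≤ p → K1 c p ≤ c * p ^ (-(3 / 4) : ℝ)) ∧
  (0 < p → c * p ^ (1 / 4 : ℝ) ≤ K c p) ∧ c ≤ K c p ∧ K c p ≤ c * (1 + |p|) ∧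
  K2 c p ≤ c / 4 ∧ (2 ≤ |p| → K2 c p ≤ 0)

/-- the profile of the well in the transversal coordinates. -/
noncomputable def bet {m : ℕ} (x : X m) : ℝ :=
  ∑ i : Fin m, (1 + Real.cos (2 * Real.pi * x i.succ)) / (4 * Real.pi ^ 2)

/-- the Hamiltonian. -/
noncomputable def HH {m : ℕ} (c : ℝ) (x p : X m) (t : ℝ) : ℝ :=
  h (x 0) (p 0) t - K c (p 0) * bet x + ∑ i : Fin m, p i.succ ^ 2 / 2

/-- a function of position, velocity (or momentum) and time as a function on the product. -/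
def U {m : ℕ} (L : X m → X m → ℝ → ℝ) (q : X m × X m × ℝ) : ℝ := L q.1 q.2.1 q.2.2

/-- the second derivative along the fibre (the function `H2` of `Pool/Agent/TH217/TL/Tool.lean`). -/
noncomputable def HS {m : ℕ} (F : X m × X m × ℝ → ℝ) (q : X m × X m × ℝ) (w : X m) : ℝ :=
  fderiv ℝ (fderiv ℝ F) q (0, w, 0) (0, w, 0)

/-- superlinearity. -/
def Sup {m : ℕ} (L : X m → X m → ℝ → ℝ) : Prop :=
  ∀ R : ℝ, ∃ B : ℝ, ∀ (x v : X m) (t : ℝ), R * ‖v‖ - B ≤ L x v t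

/-- **CONF.** Confinement by a strong well whose strength `k t` grows.  Proof.  `Z' = q g/k -
k' q²/(2k²) ≤ q g / k` (use `y' = q`, `q' = -k sin(2πy)/(2π) + g`, derivative of `1 - cos(2πy)` is
`2π sin(2πy) q`), `|q| ≤ √(2 k Z)` as `q²/(2k) ≤ Z`, so `Z' ≤ G √(2 Z/k) ≤ (G/√k) (1/2 + Z)`
(`√(2Z) ≤ 1/2 + Z`), and `G/√k ≤ (G/√M) exp(-(t-t0)/8)`.  So
`log (1/2 + Z t) + (8 G/√M) exp(-(t-t0)/8)` is nonincreasing on `[t0,T]` (`antitoneOn_of_deriv_nonpos` or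
the mean value inequality); compare `t` with `t0`. -/
def S_CONF : Prop := ∀ (G M t0 T : ℝ), 0 ≤ G → 0 < M → ∀ y q k k' g : ℝ → ℝ,
  (∀ t ∈ Icc t0 T, HasDerivAt y (q t) t ∧
    HasDerivAt q (-(k t * Real.sin (2 * Real.pi * y t) / (2 * Real.pi)) + g t) t ∧
    HasDerivAt k (k' t) t ∧ 0 ≤ k' t ∧ M * Real.exp ((t - t0) / 4) ≤ k t ∧ |g t| ≤ G) →
  ∀ t ∈ Icc t0 T,
    q t ^ 2 / (2 * k t) + (1 - Real.cos (2 * Real.pi * y t)) / (4 * Real.pi ^ 2) ≤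
      (1 / 2 + (q t0 ^ 2 / (2 * k t0) + (1 - Real.cos (2 * Real.pi * y t0)) / (4 * Real.pi ^ 2)))
        * Real.exp (8 * G / Real.sqrt M) - 1 / 2

/-- a solution of the Hamiltonian system of `HH c` with an additional bounded force `g`. -/
def HamSol {m : ℕ} (c G : ℝ) (x p g : ℝ → X m) (I : Set ℝ) : Prop :=
  ∀ t ∈ I,
    HasDerivAt (fun s => x s 0) (hp (x t 0) (p t 0) t - K1 c (p t 0) * bet (x t)) t ∧
    HasDerivAt (fun s => p s 0) (fo (x t 0) (p t 0) t + g t 0) t ∧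
    (∀ i : Fin m, HasDerivAt (fun s => x s i.succ) (p t i.succ) t ∧
      HasDerivAt (fun s => p s i.succ)
        (-(K c (p t 0) * Real.sin (2 * Real.pi * x t i.succ) / (2 * Real.pi)) + g t i.succ) t) ∧
    ∀ i, |g t i| ≤ G

/-- the initial box. -/
def Init {m : ℕ} (k1 : ℕ) (ρ : ℝ) (x p : X m) : Prop :=
  |x 0 - k1 * (k1 + 1 / 2)| ≤ 1 / 1000 ∧ |p 0 - 3 ^ k1| ≤ 3 ^ k1 / 1000 ∧
    ∀ i : Fin m, |x i.succ| ≤ ρ ∧ |p i.succ| ≤ ρ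

/-- **DYN** (from STOP, KF, CONF).  Proof.  Let `t1 = k1 + 1/2`.  The pair `(x 0, p 0)` satisfies the
hypotheses of STOP with `N = 0` for large `k1`: where `p 0 ≥ 3^k1/2` the velocity error is
`K1 c (p 0) bet x ≤ c (3^k1/2)^(-3/4) m/(2π²) ≤ 10⁻¹⁰` (`0 ≤ bet ≤ m/(2π²)`), the force error `≤ G`.  So for
all `t ∈ [t1,T]`: `x_0' ≥ t - 5/2`, `p 0 ≥ 3^(t-3/2)/2`, `p_0' ≥ 3^k1/4 - G ≥ 0`.  For each `i` apply CONF to
`y = x i.succ`, `q = p i.succ`, `k = K c (p 0)`, `k' = K1 c (p 0) p_0' ≥ 0`; by KF `k t ≥ c (3^(t-3/2)/2)^(1/4)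
≥ M exp((t-t1)/4)` with `M = c (3^(k1-1)/2)^(1/4)`, since `3^((t-t1)/4) ≥ exp((t-t1)/4)` (`3 ≥ e`).  Take
`η > 0` with `4π² η < 8 ε²` (say), then `k1` so large that `exp(8G/√M)` is close to `1` and `ρ` so small
(depending on `k1`; `k t1 ≥ c`) that the right side of CONF is `≤ η`.  So `1 - cos(2π y t) ≤ 4π²η < 8ε²` for
all `t ∈ [t1,T]`; as `1 - cos(2πy) ≥ 8y²` for `|y| ≤ 1/2` (`Real.one_sub_cos`... or
`Real.mul_le_sin`: `1 - cos(2πy) = 2 sin²(πy)`, `sin(πy) ≥ 2y` for `0 ≤ y ≤ 1/2`) and `8ε² ≤ 1/2 < 2`, `y`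
never takes the values `±1/2` (intermediate value theorem, `|y t1| ≤ ρ < 1/2`), so `|y t| < 1/2` and then
`|y t| < ε`. -/
def S_DYN : Prop := ∀ (m : ℕ) (c G ε : ℝ), 0 < c → 0 ≤ G → 0 < ε → ε ≤ 1 / 4 →
  ∃ k0 : ℕ, ∀ k1 : ℕ, k0 ≤ k1 → ∃ ρ : ℝ, 0 < ρ ∧ ∀ T : ℝ, (k1 : ℝ) + 1 / 2 ≤ T →
  ∀ x p g : ℝ → X m, HamSol c G x p g (Icc ((k1 : ℝ) + 1 / 2) T) →
    Init k1 ρ (x (k1 + 1 / 2)) (p (k1 + 1 / 2)) →
    ∀ t ∈ Icc ((k1 : ℝ) + 1 / 2) T,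
      t - 5 / 2 ≤ hp (x t 0) (p t 0) t - K1 c (p t 0) * bet (x t) ∧
      ∀ i : Fin m, |x t i.succ| < ε

/-- **HSM.** Smoothness, periodicity and partial derivatives of `HH c`.  `h = log Z`, `Z > 0`, `Z`
smooth and its derivatives: `smooth`, `der` in `Pool/Agent/W774/TL/Final.lean`; periodicity of `h`: see the
proof of `main_thm` in `Pool/Agent/W774/TL/Main2.lean` (shift of the summation variable is not needed:
each term is periodic in `x`, and `t ↦ t+1` changes `x - j t` by the integer `j`). -/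
def S_HSM : Prop := ∀ (m : ℕ) (c : ℝ), 0 < c →
  ContDiff ℝ ∞ (U (m := m) (HH c)) ∧ PerL (HH (m := m) c) ∧ ∀ (x p : X m) (t : ℝ),
    Lv (HH c) 0 x p t = hp (x 0) (p 0) t - K1 c (p 0) * bet x ∧
    Lx (HH c) 0 x p t = -fo (x 0) (p 0) t ∧
    ∀ i : Fin m, Lv (HH c) i.succ x p t = p i.succ ∧
      Lx (HH c) i.succ x p t = K c (p 0) * Real.sin (2 * Real.pi * x i.succ) / (2 * Real.pi)

/-- **HPOS.** For small `c > 0` the Hamiltonian is fibrewise convex.  Proof.  The second derivative of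
`HH c` along the fibre at `w` is `(h_pp - K2 c (p 0) bet x) w_0² + ∑ w_{i+1}²` (differentiate
`s ↦ HH c x (p + s w) t` twice).  `h_pp = (∑j²E·∑E - (∑jE)²)/Z² > 0` (`P_CVX`, `P_DER`, proved in
`Pool/Agent/W891/TL/CVX.lean` `cvx_thm sum_thm`, `Pool/Agent/W740/TL/DER.lean`), it is continuous and periodic in
`(x,t)`, so `h_pp ≥ δ > 0` for `|p| ≤ 2`.  Choose `c` with `(c/4) m/(2π²) < δ`.  By KF `K2 bet ≤ (c/4) m/(2π²)`
always and `K2 bet ≤ 0` for `|p| ≥ 2`. -/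
def S_HPOS : Prop := ∀ m : ℕ, ∃ c : ℝ, 0 < c ∧
  ∀ (q : X m × X m × ℝ) (w : X m), w ≠ 0 → 0 < HS (U (HH c)) q w

/-- **HSUP.** Superlinearity and boundedness on bounded sets (`P_SUP`, proved in
`Pool/Agent/W819/TL/SUP.lean`; `K c p bet x ≤ c (1+|p|) m/(2π²)`, and `p²/2 ≥ R|p| - R²/2`;
`‖p‖ = max |p_i| ≤ ∑ |p_i|`). -/
def S_HSUP : Prop := ∀ (m : ℕ) (c : ℝ), 0 < c → Sup (HH (m := m) c) ∧
  ∀ R : ℝ, ∃ B : ℝ, ∀ (x p : X m) (t : ℝ), ‖p‖ ≤ R → HH c x p t ≤ B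

/-- **LEG.** Legendre duality in several variables, smooth version.  Proof.  Let
`Ψ(x,p,t) = (x, ∂_p H(x,p,t), t)`.  As in `Pool/Agent/TH217/TL/Leg.lean` (there for class `C²`, with the roles
of `p` and `v` exchanged; the file can be copied with `1` replaced by `∞`) `Ψ` is a bijection
(injective by strict convexity along lines, surjective by superlinearity), smooth, with invertible
derivative, so its inverse is smooth: `Ψ⁻¹(x,v,t) = (x, P(x,v,t), t)`.  Put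
`L(x,v,t) = ∑ v_i P_i - H(x,P,t)`; it is smooth, `∂L/∂v_i = P_i`, `∂L/∂x_i = -∂H/∂x_i(x,P,t)` (the other terms
cancel since `∂_p H(x,P,t) = v`).  The fibre Hessian of `L` is the derivative of `P` in `v`, the inverse of
the symmetric positive definite Hessian of `H`: for `w ≠ 0` and `u = DP w` (so `w = D²H u`, `u ≠ 0`)
`⟨w, DP w⟩ = ⟨D²H u, u⟩ > 0`.  Superlinear: `L(x,v,t) ≥ ⟨v,p⟩ - H(x,p,t)` for all `p` (convexity), take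
`p = R sign(v_i) e_i` for the `i` with `|v_i| = ‖v‖` and the upper bound for `H` on `‖p‖ ≤ R`.  Periodicity:
`Ψ` commutes with the translations. -/
def S_LEG : Prop := ∀ (m : ℕ) (H : X m → X m → ℝ → ℝ), ContDiff ℝ ∞ (U H) →
  (∀ (q : X m × X m × ℝ) (w : X m), w ≠ 0 → 0 < HS (U H) q w) → Sup H →
  (∀ R : ℝ, ∃ B : ℝ, ∀ (x p : X m) (t : ℝ), ‖p‖ ≤ R → H x p t ≤ B) → PerL H →
  ∃ (L : X m → X m → ℝ → ℝ) (P : X m → X m → ℝ → X m),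
    ContDiff ℝ ∞ (U L) ∧ ContDiff ℝ ∞ (fun q : X m × X m × ℝ => P q.1 q.2.1 q.2.2) ∧
    (∀ x v t i, Lv L i x v t = P x v t i) ∧
    (∀ x v t i, Lx L i x v t = -Lx H i x (P x v t) t) ∧
    (∀ x v t i, Lv H i x (P x v t) t = v i) ∧
    (∀ x p t, P x (fun i => Lv H i x p t) t = p) ∧
    (∀ (q : X m × X m × ℝ) (w : X m), w ≠ 0 → 0 < HS (U L) q w) ∧ Sup L ∧ PerL L

/-! ## 3. Gluing in the tube -/

/-- the tube `|x_i| < ε`, `i ≥ 1`. -/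
def Tube (m : ℕ) (ε : ℝ) : Set (X m) := {x | ∀ i : Fin m, |x i.succ| < ε}

/-- `L` is a Lagrangian of class `C^k` on the tube of radius `ε`, with positive definite fibre Hessian,
periodic in `x_0` and `t`. -/
def OnTube {m : ℕ} (k : ℕ∞) (ε : ℝ) (L : X m → X m → ℝ → ℝ) : Prop :=
  ContDiffOn ℝ k (U L) {q | q.1 ∈ Tube m ε} ∧
  (∀ x v t, x ∈ Tube m ε →
    L (Function.update x 0 (x 0 + 1)) v t = L x v t ∧ L x v (t + 1) = L x v t) ∧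
  ∀ q : X m × X m × ℝ, q.1 ∈ Tube m ε → ∀ w : X m, w ≠ 0 → 0 < HS (U L) q w

/-- superlinear on the tube. -/
def SupOn {m : ℕ} (ε : ℝ) (L : X m → X m → ℝ → ℝ) : Prop :=
  ∀ R : ℝ, ∃ B : ℝ, ∀ (x v : X m) (t : ℝ), x ∈ Tube m ε → R * ‖v‖ - B ≤ L x v t

/-- **GLUE.** Modification of `L₀` inside the tube of radius `ε/2` and for `‖v‖ > R` only, so that in the
tube of radius `ε/4` it agrees with `Y` up to a constant for large `‖v‖`.  Proof.  Let `χ₁` be a smooth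
function of `(x_1,…,x_m)`, `= 1` for all `|x_i| ≤ ε/2`, `= 0` unless all `|x_i| < 3ε/4` (product of smooth
transitions), and `U0 = χ₁ L₀ + (1-χ₁) ∑ v_i²/2`: of class `C^k` on the whole space, periodic in `x_0, t`, with
positive fibre Hessian everywhere (convex combination; the cut-off does not depend on `v`).  Apply the
construction of `glue_thm` in `Pool/Agent/TH217/TL/Glue.lean` to `U0` and `Y0 = Y` (periodicity in
`x_1,…,x_m` is used there only to have bounds by compactness (`per_bd`): use instead that `U0` is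
periodic in `x_0` and `t` and restrict all statements to `|x_i| ≤ 1`): there is `B` of class `C^k` on the
whole space, periodic in `x_0, t`, with positive fibre Hessian at all points with `|x_i| ≤ 1`, `B = U0` for
`‖v‖ ≤ R`, `B = Y + c` for `|x_i| ≤ 1`, `‖v‖ ≥ R'`, and `B ≥ Y - const`.  (Alternative: make `U0` periodic in all
variables by replacing `x_i` by `x_i - round x_i` in it, and apply `glue_thm` as it is.)  Finally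
`L = χ₂ B + (1-χ₂) L₀` with `χ₂ = 1` for `|x_i| ≤ ε/4` and `χ₂ = 0` unless all `|x_i| < 3ε/8`; where
`χ₂ ≠ 0` we have `U0 = L₀`. -/
def S_GLUE : Prop := ∀ (m : ℕ) (k : ℕ∞) (ε : ℝ), 2 ≤ k → 0 < ε → ε ≤ 1 / 4 →
  ∀ L₀ : X m → X m → ℝ → ℝ, OnTube k ε L₀ →
  ∀ Y : X m → X m → ℝ → ℝ, ContDiff ℝ ∞ (U Y) → PerL Y →
  (∀ (q : X m × X m × ℝ) (w : X m), w ≠ 0 → 0 < HS (U Y) q w) → Sup Y →
  ∀ R : ℝ, ∃ L : X m → X m → ℝ → ℝ, OnTube k ε L ∧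
    (∀ x v t, (x ∉ Tube m (ε / 2) ∨ ‖v‖ ≤ R) → L x v t = L₀ x v t) ∧
    (SupOn ε L₀ → SupOn ε L) ∧
    ∃ R' c : ℝ, ∀ x v t, x ∈ Tube m (ε / 4) → R' ≤ ‖v‖ → L x v t = Y x v t + c

/-! ## 4. Existence and the final statement -/

/-- **EXI.** Global existence for the Hamiltonian system with a potential.  Proof.  The vector field
`F(x,p,t) = (∂_p HH, -∂_x HH + ∂f, 1)` on `X × X × ℝ` is of class `C¹` (HSM, `f` of class `C²`) and of at most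
linear growth (`P_GROW`, proved in `Pool/Agent/W583/TL/Grow.lean`: `|fo|, |hp| ≤ 12|p| + 100`; KF:
`|K1| ≤ c`, `K ≤ c (1+|p|)`; `|∂f| ≤ G`), so `Pool.Agent.Helper981.global_sol` applies, exactly as in
`Pool/Agent/W599/TL/Compl.lean` or `ext_sol` in `Pool/Agent/TH217/TL/Step2.lean`. -/
def S_EXI : Prop := ∀ (m : ℕ) (c G : ℝ), 0 < c → ∀ f : X m → ℝ → ℝ,
  ContDiff ℝ 2 (fun q : X m × ℝ => f q.1 q.2) → (∀ i x t, |Df f i x t| ≤ G) →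
  ∀ (t0 : ℝ) (x0 p0 : X m), ∃ x p : ℝ → X m, x t0 = x0 ∧ p t0 = p0 ∧
    ∀ t, HasDerivAt x (fun i => Lv (HH c) i (x t) (p t) t) t ∧
      HasDerivAt p (fun i => -Lx (HH c) i (x t) (p t) t + Df f i (x t) t) t

/-- `γ` is of class `C¹` near `t` and satisfies the Euler-Lagrange equations of `L` at the time `t`. -/
def ELat {m : ℕ} (L : X m → X m → ℝ → ℝ) (γ : ℝ → X m) (t : ℝ) : Prop :=
  (∀ᶠ s in 𝓝 t, DifferentiableAt ℝ γ s) ∧ ContinuousAt (deriv γ) t ∧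
  ∀ i, HasDerivAt (fun s => Lv L i (γ s) (deriv γ s) s) (Lx L i (γ t) (deriv γ t) t) t

/-- **Main theorem** (assembly: helper506). -/
def S_MAIN : Prop := ∀ (m : ℕ) (k : ℕ∞) (ε : ℝ), 2 ≤ k → 0 < ε → ε ≤ 1 / 4 →
  ∀ L₀ : X m → X m → ℝ → ℝ, OnTube k ε L₀ → ∀ R : ℝ,
  ∃ L : X m → X m → ℝ → ℝ, OnTube k ε L ∧
    (∀ x v t, (x ∉ Tube m (ε / 2) ∨ ‖v‖ ≤ R) → L x v t = L₀ x v t) ∧
    (SupOn ε L₀ → SupOn ε L) ∧
    ∀ G : ℝ, ∃ (t₀ : ℝ) (W : Set (X m × X m)), IsOpen W ∧ W.Nonempty ∧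
      (∀ q ∈ W, q.1 ∈ Tube m (ε / 4)) ∧
      ∀ f : X m → ℝ → ℝ, ContDiff ℝ 2 (fun q : X m × ℝ => f q.1 q.2) →
        (∀ i x t, |Df f i x t| ≤ G) →
        (∀ q ∈ W, ∃ γ : ℝ → X m, γ t₀ = q.1 ∧ deriv γ t₀ = q.2 ∧
          ∀ t, t₀ ≤ t → ELat (fun x v t => L x v t + f x t) γ t ∧ γ t ∈ Tube m (ε / 4) ∧
            t - 5 / 2 ≤ deriv γ t 0) ∧
        ∀ (γ : ℝ → X m) (T : ℝ), (γ t₀, deriv γ t₀) ∈ W →
          (∀ t ∈ Ico t₀ T, γ t ∈ Tube m ε ∧ ELat (fun x v t => L x v t + f x t) γ t) →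
          ∀ t ∈ Ico t₀ T, γ t ∈ Tube m (ε / 4) ∧ t - 5 / 2 ≤ deriv γ t 0

end Pool.Agent.Run7.h506.TA
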