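-- text of helper858 (Run7/h858/TA/EXI.lean), without its last line
import Pool.Agent.Run7.h506.TA.Stm
import Pool.Agent.Helper981.Flow
import Pool.Agent.W583.TL.Grow
import Pool.Agent.W774.TL.Sum
import Pool.Agent.W599.TL.Compl

/-!
# Piece EXI: global existence for the Hamiltonian system
-/

set_option autoImplicit false

namespace Pool.Agent.Run7.h506.TA.EXI858

open Pool.Agent.W774.TL Pool.Agent.Run7.h506.TA Set Filter Topology
open scoped ContDiff

lemma Lv_eq {m : ℕ} {L : X m → X m → ℝ → ℝ} (hL : ContDiff ℝ ∞ (U L)) (i : Fin (m + 1))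
    (x v : X m) (t : ℝ) : Lv L i x v t = fderiv ℝ (U L) (x, v, t) (0, Pi.single i 1, 0) := by
  have hu : HasDerivAt (fun s : ℝ => Function.update v i s) (Pi.single i 1) (v i) :=
    hasDerivAt_update v i (v i)
  have hc : HasDerivAt (fun s : ℝ => ((x, Function.update v i s, t) : X m × X m × ℝ))
      (0, Pi.single i 1, 0) (v i) :=
    (hasDerivAt_const _ x).prodMk (hu.prodMk (hasDerivAt_const _ t))
  have hx : ((x, Function.update v i (v i), t) : X m × X m × ℝ) = (x, v, t) := by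
    rw [Function.update_eq_self]
  have hd' : HasFDerivAt (U L) (fderiv ℝ (U L) (x, v, t)) (x, Function.update v i (v i), t) := by
    rw [hx]
    exact ((hL.differentiable (by simp)) _).hasFDerivAt
  exact (hd'.comp_hasDerivAt (v i) hc).deriv

lemma Lx_eq {m : ℕ} {L : X m → X m → ℝ → ℝ} (hL : ContDiff ℝ ∞ (U L)) (i : Fin (m + 1))
    (x v : X m) (t : ℝ) : Lx L i x v t = fderiv ℝ (U L) (x, v, t) (Pi.single i 1, 0, 0) := by
  have hu : HasDerivAt (fun s : ℝ => Function.update x i s) (Pi.single i 1) (x i) :=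
    hasDerivAt_update x i (x i)
  have hc : HasDerivAt (fun s : ℝ => ((Function.update x i s, v, t) : X m × X m × ℝ))
      (Pi.single i 1, 0, 0) (x i) :=
    hu.prodMk ((hasDerivAt_const _ v).prodMk (hasDerivAt_const _ t))
  have hx : ((Function.update x i (x i), v, t) : X m × X m × ℝ) = (x, v, t) := by
    rw [Function.update_eq_self]
  have hd' : HasFDerivAt (U L) (fderiv ℝ (U L) (x, v, t)) (Function.update x i (x i), v, t) := by
    rw [hx]
    exact ((hL.differentiable (by simp)) _).hasFDerivAt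
  exact (hd'.comp_hasDerivAt (x i) hc).deriv

/-- the autonomous field. -/
noncomputable def FF {m : ℕ} (c : ℝ) (f : X m → ℝ → ℝ) (z : X m × X m × ℝ) : X m × X m × ℝ :=
  (fun i => Lv (HH c) i z.1 z.2.1 z.2.2,
    fun i => -Lx (HH c) i z.1 z.2.1 z.2.2 + Df f i z.1 z.2.2, 1)

lemma FF_cd {m : ℕ} {c : ℝ} (hU : ContDiff ℝ ∞ (U (m := m) (HH c))) {f : X m → ℝ → ℝ}
    (hf : ContDiff ℝ 2 (fun q : X m × ℝ => f q.1 q.2)) : ContDiff ℝ 1 (FF c f) := by
  have hU2 : ContDiff ℝ 2 (U (m := m) (HH c)) :=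
    hU.of_le (WithTop.coe_le_coe.2 le_top : ((2 : ℕ∞) : WithTop ℕ∞) ≤ _)
  have hd : ContDiff ℝ 1 (fderiv ℝ (U (m := m) (HH c))) :=
    ContDiff.fderiv_right (m := 1) (n := 2) hU2 (by norm_num)
  have hc' : ContDiff ℝ 1 (fun z : X m × X m × ℝ => ((z.1, z.2.2) : X m × ℝ)) := by
    fun_prop
  refine ContDiff.prodMk ?_ (ContDiff.prodMk ?_ contDiff_const)
  · rw [contDiff_pi]
    intro i
    have he : (fun z : X m × X m × ℝ => Lv (HH c) i z.1 z.2.1 z.2.2) =
        fun z => fderiv ℝ (U (HH c)) z (0, Pi.single i 1, 0) := by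
      funext z
      exact Lv_eq hU i z.1 z.2.1 z.2.2
    rw [he]
    exact hd.clm_apply contDiff_const
  · rw [contDiff_pi]
    intro i
    have he : (fun z : X m × X m × ℝ => Lx (HH c) i z.1 z.2.1 z.2.2) =
        fun z => fderiv ℝ (U (HH c)) z (Pi.single i 1, 0, 0) := by
      funext z
      exact Lx_eq hU i z.1 z.2.1 z.2.2
    have h1 : ContDiff ℝ 1 (fun z : X m × X m × ℝ => Lx (HH c) i z.1 z.2.1 z.2.2) := by
      rw [he]
      exact hd.clm_apply contDiff_const
    exact h1.neg.add ((Pool.Agent.W599.TL.Df_cd hf i).comp hc')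

lemma bet_bd {m : ℕ} (x : X m) : |bet x| ≤ m := by
  unfold bet
  have hpi : 3 < Real.pi := Real.pi_gt_three
  have h1 : ∀ i : Fin m, |(1 + Real.cos (2 * Real.pi * x i.succ)) / (4 * Real.pi ^ 2)| ≤ 1 := by
    intro i
    have h2 := Real.neg_one_le_cos (2 * Real.pi * x i.succ)
    have h3 := Real.cos_le_one (2 * Real.pi * x i.succ)
    rw [abs_div, abs_of_nonneg (by linarith : 0 ≤ 1 + Real.cos (2 * Real.pi * x i.succ)),
      abs_of_pos (by positivity : 0 < 4 * Real.pi ^ 2), div_le_one (by positivity)]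
    nlinarith
  calc |∑ i : Fin m, (1 + Real.cos (2 * Real.pi * x i.succ)) / (4 * Real.pi ^ 2)|
      ≤ ∑ i : Fin m, |(1 + Real.cos (2 * Real.pi * x i.succ)) / (4 * Real.pi ^ 2)| :=
        Finset.abs_sum_le_sum_abs _ _
    _ ≤ ∑ _i : Fin m, (1 : ℝ) := Finset.sum_le_sum fun i _ => h1 i
    _ = m := by simp

lemma FF_bd (hS : S_HSM) (hK : S_KF) {m : ℕ} {c G : ℝ} (hc : 0 < c) {f : X m → ℝ → ℝ}
    (hG0 : 0 ≤ G) (hG : ∀ i x t, |Df f i x t| ≤ G) (z : X m × X m × ℝ) :
    ‖FF c f z‖ ≤ (100 + c * m + c + G) * (1 + ‖z‖) := by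
  have h3 : P_GROW := Pool.Agent.W583.TL.grow_thm sum_thm
  have hz0 : 0 ≤ ‖z‖ := norm_nonneg z
  have hpz : ∀ i, |z.2.1 i| ≤ ‖z‖ := by
    intro i
    have e1 : ‖z.2.1 i‖ ≤ ‖z.2.1‖ := norm_le_pi_norm _ i
    have e2 : ‖z.2.1‖ ≤ ‖z.2‖ := norm_fst_le _
    have e3 : ‖z.2‖ ≤ ‖z‖ := norm_snd_le _
    rw [← Real.norm_eq_abs]
    exact e1.trans (e2.trans e3)
  have hm0 : (0 : ℝ) ≤ m := Nat.cast_nonneg m
  have hcm : 0 ≤ c * m := by positivity
  have hcz : 0 ≤ c * m * ‖z‖ := by positivity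
  have hcz' : 0 ≤ c * ‖z‖ := by positivity
  have hGz : 0 ≤ G * ‖z‖ := mul_nonneg hG0 hz0
  have hB : 0 ≤ (100 + c * m + c + G) * (1 + ‖z‖) := by positivity
  obtain ⟨-, -, hs⟩ := hS m c hc
  obtain ⟨hv0, hx0, hsucc⟩ := hs z.1 z.2.1 z.2.2
  obtain ⟨-, hKp⟩ := hK c hc
  obtain ⟨-, -, hK1, -, -, -, hKlo, hKup, -, -⟩ := hKp (z.2.1 0)
  have hb := bet_bd z.1
  have hgr := h3 (z.1 0) (z.2.1 0) z.2.2
  unfold FF
  refine max_le ?_ (max_le ?_ ?_)
  · refine (pi_norm_le_iff_of_nonneg hB).2 (fun i => ?_)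
    rw [Real.norm_eq_abs]
    refine Fin.cases ?_ (fun i => ?_) i
    · show |Lv (HH c) 0 z.1 z.2.1 z.2.2| ≤ _
      rw [hv0]
      have h5 := hpz 0
      have h6 : |K1 c (z.2.1 0) * bet z.1| ≤ c * m := by
        rw [abs_mul]
        exact mul_le_mul hK1 hb (abs_nonneg _) hc.le
      have h7 := abs_sub (hp (z.1 0) (z.2.1 0) z.2.2) (K1 c (z.2.1 0) * bet z.1)
      have h8 := hgr.2
      nlinarith
    · show |Lv (HH c) i.succ z.1 z.2.1 z.2.2| ≤ _
      rw [(hsucc i).1]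
      have h5 := hpz i.succ
      nlinarith
  · refine (pi_norm_le_iff_of_nonneg hB).2 (fun i => ?_)
    rw [Real.norm_eq_abs]
    refine Fin.cases ?_ (fun i => ?_) i
    · show |-Lx (HH c) 0 z.1 z.2.1 z.2.2 + Df f 0 z.1 z.2.2| ≤ _
      rw [hx0, neg_neg]
      have h5 := hpz 0
      have h6 := hG 0 z.1 z.2.2
      have h7 := abs_add_le (fo (z.1 0) (z.2.1 0) z.2.2) (Df f 0 z.1 z.2.2)
      have h8 := hgr.1
      nlinarith
    · show |-Lx (HH c) i.succ z.1 z.2.1 z.2.2 + Df f i.succ z.1 z.2.2| ≤ _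
      rw [(hsucc i).2]
      have h5 := hpz 0
      have h6 := hG i.succ z.1 z.2.2
      have hpi : 3 < Real.pi := Real.pi_gt_three
      have hK0 : 0 ≤ K c (z.2.1 0) := hc.le.trans hKlo
      have h9 : |K c (z.2.1 0) * Real.sin (2 * Real.pi * z.1 i.succ) / (2 * Real.pi)| ≤
          K c (z.2.1 0) := by
        rw [abs_div, abs_mul, abs_of_nonneg hK0, abs_of_pos (by positivity : 0 < 2 * Real.pi),
          div_le_iff₀ (by positivity)]
        have h10 := Real.abs_sin_le_one (2 * Real.pi * z.1 i.succ)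
        have h11 : 0 ≤ |Real.sin (2 * Real.pi * z.1 i.succ)| := abs_nonneg _
        nlinarith
      have h7 := abs_add_le (-(K c (z.2.1 0) * Real.sin (2 * Real.pi * z.1 i.succ) / (2 * Real.pi)))
        (Df f i.succ z.1 z.2.2)
      rw [abs_neg] at h7
      nlinarith
  · have : ‖(1 : ℝ)‖ = 1 := norm_one
    show ‖(1 : ℝ)‖ ≤ _
    rw [this]
    nlinarith

theorem t_EXI : S_HSM → S_KF → S_EXI := by
  intro hS hK m c G hc f hf hG t0 x0 p0
  have hG0 : 0 ≤ G := (abs_nonneg _).trans (hG 0 x0 t0)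
  have hU := (hS m c hc).1
  obtain ⟨α, ha0, ha⟩ := Pool.Agent.Helper981.global_sol (F := FF c f) (FF_cd hU hf)
    (A := 100 + c * m + c + G) (by positivity) (FF_bd hS hK hc hG0 hG) (x0, p0, t0)
  have hT : ∀ s, (α s).2.2 = t0 + s := by
    have hd : ∀ s, HasDerivAt (fun s => (α s).2.2) 1 s := fun s => ((ha s).snd).snd
    have hd2 : ∀ s, HasDerivAt (fun s => (α s).2.2 - s) 0 s := by
      intro s
      have := (hd s).fun_sub (hasDerivAt_id s)
      simpa using this
    have hc := is_const_of_deriv_eq_zero (f := fun s => (α s).2.2 - s)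
      (fun s => (hd2 s).differentiableAt) (fun s => (hd2 s).deriv)
    intro s
    have h5 := hc s 0
    simp only [ha0, sub_zero] at h5
    linarith
  have hsh : ∀ t : ℝ, HasDerivAt (fun t => α (t - t0)) (FF c f (α (t - t0))) t := by
    intro t
    exact (ha (t - t0)).comp_sub_const t t0
  refine ⟨fun t => (α (t - t0)).1, fun t => (α (t - t0)).2.1, ?_, ?_, ?_⟩
  · simp [ha0]
  · simp [ha0]
  · intro t
    have e : (α (t - t0)).2.2 = t := by rw [hT]; ring
    have hx : HasDerivAt (fun t => (α (t - t0)).1) (FF c f (α (t - t0))).1 t := (hsh t).fst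
    have hy : HasDerivAt (fun t => (α (t - t0)).2.1) (FF c f (α (t - t0))).2.1 t :=
      ((hsh t).snd).fst
    constructor
    · have : (FF c f (α (t - t0))).1 =
          fun i => Lv (HH c) i (α (t - t0)).1 (α (t - t0)).2.1 t := by
        unfold FF
        simp only [e]
      rw [this] at hx
      exact hx
    · have : (FF c f (α (t - t0))).2.1 = fun i =>
          -Lx (HH c) i (α (t - t0)).1 (α (t - t0)).2.1 t + Df f i (α (t - t0)).1 t := by
        unfold FF
        simp only [e]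
      rw [this] at hy
      exact hy

end Pool.Agent.Run7.h506.TA.EXI858

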