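import Pool.Agent.Run7.h506.TA.Fin
import Pool.Agent.Run7.h171.TA.CONF
import Pool.Agent.Run7.h403.TA.DYN
import Pool.Agent.Run7.h506.TA.EXI
import Pool.Agent.Run7.h716.TA.GLUE
import Pool.Agent.Run7.h64.TA.HPOS
import Pool.Agent.Run7.h18.TA.HSM
import Pool.Agent.Run7.h171.TA.HSUP
import Pool.Agent.Run7.h623.TA.J1
import Pool.Agent.Run7.h623.TA.J2
import Pool.Agent.Run7.h781.TA.J3
import Pool.Agent.Run7.h181.TA.KF
import Pool.Agent.Run7.h88.TA.LEG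
import Pool.Agent.Run7.h18.TA.LVL
import Pool.Agent.Run7.h727.TA.POSF
import Pool.Agent.Run7.h88.TA.STEP
import Pool.Agent.Run7.h716.TA.STOP

/-!
Project TA: the pieces put together.
-/

set_option autoImplicit false

namespace Pool.Agent.Run7.h506.TA

theorem kf : S_KF := Pool.Agent.Run7.h181.TA.t_KF
theorem hsm : S_HSM := Pool.Agent.Run7.h18.TA.t_HSM kf
theorem step0 : S_STEP := Pool.Agent.Run7.h88.TA.t_STEP Pool.Agent.Run7.h623.TA.t_J1
  Pool.Agent.Run7.h623.TA.t_J2 Pool.Agent.Run7.h781.TA.t_J3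
theorem lvl : S_LVL := Pool.Agent.Run7.h18.TA.t_LVL step0 Pool.Agent.Run7.h727.TA.t_POSF
theorem stop : S_STOP := Run7.h716.TA.t_STOP lvl
theorem dyn : S_DYN := Pool.Agent.Run7.h403.TA.t_DYN stop kf Pool.Agent.Run7.h171.TA.t_CONF
theorem main1 : S_MAIN :=
  t_MAIN dyn hsm (Pool.Agent.Run7.h64.TA.t_HPOS kf hsm) (Pool.Agent.Run7.h171.TA.t_HSUP kf)
    Pool.Agent.Run7.h88.TA.t_LEG Run7.h716.TA.t_GLUE
    (EXI858.t_EXI hsm kf)

end Pool.Agent.Run7.h506.TA
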