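import Pool.Agent.Run7.h506.TA.Stm

/-!
# Project TA, second stage: the energy criterion for completeness

With the four pieces of this file the main theorem gets one more conclusion: if `L₀` satisfies the
classical criterion for completeness `|∂L₀/∂t| ≤ C (1 + |E|)` (`E` the energy), so does `L`.  So the
Lagrangians of the theorem are Tonelli on every closed manifold.
-/

set_option autoImplicit false

namespace Pool.Agent.Run7.h506.TA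

open Pool.Agent.W774.TL Set Filter Topology
open scoped ContDiff

/-- time derivative. -/
noncomputable def Lt {m : ℕ} (L : X m → X m → ℝ → ℝ) (x v : X m) (t : ℝ) : ℝ :=
  deriv (fun s => L x v s) t

/-- energy `∑ v_i ∂L/∂v_i - L`. -/
noncomputable def En {m : ℕ} (L : X m → X m → ℝ → ℝ) (x v : X m) (t : ℝ) : ℝ :=
  ∑ i, v i * Lv L i x v t - L x v t

/-- the classical criterion for completeness, on the tube of radius `ε`. -/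
def Gro {m : ℕ} (ε : ℝ) (L : X m → X m → ℝ → ℝ) : Prop :=
  ∃ C : ℝ, ∀ (x v : X m) (t : ℝ), x ∈ Tube m ε → |Lt L x v t| ≤ C * (1 + |En L x v t|)

/-- **GRT.**  Let `a_j = 3^|j|`, `e_j = j p - V j x t`, `E_j = exp e_j`, `w_j = E_j/Z`; `0.59 a_j ≤ V_j ≤ 0.91
a_j` (`|S| ≤ 1/(2π) ≤ 0.16`).
(1) Derivative.  `∂_t h = ∑ j a_j Co(x - j t) E_j / Z` (differentiation under the sum as in
`Pool/Agent/W740/TL/DER.lean`, `hasDerivAt_tsum` with the summable bounds `P_SUM`, `|j| ≤ a_j`; only an upper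
bound for `|∂_t h|` is needed).  So `|∂_t h| ≤ ∑ |j| a_j w_j`.
(2) Let `q = |p|` and `n ≥ 0` the integer with `3^n ≤ 1 + q < 3^(n+1)`, `σ = ±1` the sign of `p`.
Lower bound: `h ≥ e_j` for all `j`; `j = 0`: `h ≥ -0.91`; `j = σ n`: `h ≥ n q - 0.91·3^n ≥ (n - 0.91) q - 0.91`.
For `n ≥ 2` this is `≥ (n/2) q - 0.91`, so `n q ≤ 2 (h + 0.91)`.
(3) Large `|j|`.  Let `|j| = n + r`, `r ≥ 3`.  If `j` has the sign of `p`: `e_j - e_{σn} ≤ r q - 0.59·3^(n+r) +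
0.91·3^n ≤ 3^n (3 r + 0.91 - 0.59·3^r) ≤ -0.2·3^(n+r)` (as `3r + 0.91 ≤ 0.38·3^r` for `r ≥ 3`).  Otherwise
`e_j - e_0 ≤ -0.59 a_j + 0.91`.  In both cases `w_j ≤ 3 exp(-a_j/5)`, so the part `|j| ≥ n + 3` of the sum is at
most the constant `C1 = ∑ 3 |j| a_j exp(-a_j/5)`.
(4) Small `|j| ≤ n + 2`: the part is at most `(n+2) 3^(n+2) ≤ 9 (n+2)(1+q)`.  If `n ≤ 1` this is `≤ 243`.  If
`n ≥ 2`, then `q ≥ 8`, `9 (n+2)(1+q) ≤ 18 n (1+q) ≤ 36 n q ≤ 72 (h + 0.91)`. -/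
def S_GRT : Prop := ∃ C : ℝ, ∀ x p t : ℝ, |deriv (fun s => h x p s) t| ≤ C * (1 + |h x p t|)

/-- **HGR** (from GRT, KF; uses `P_SUP` of the library, `Pool/Agent/W819/TL/SUP.lean`).  `∂_t HH = ∂_t h`, so it
remains to bound `|h|` by `C (1 + |HH|)`.  With `b = m/(2π²)`: `0 ≤ K c p bet ≤ c b (1 + |p|)`, and
`h ≥ 2 c b |p| - B` (superlinear), `h ≥ -B`.  `HH ≥ h - K bet ≥ h - c b - c b |p| ≥ h - c b - (h + B)/2`, so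
`h ≤ 2 HH + 2 c b + B`, and `|h| ≤ h + 2 B`. -/
def S_HGR : Prop := ∀ (m : ℕ) (c : ℝ), 0 < c → ∃ C : ℝ, ∀ (x p : X m) (t : ℝ),
  |deriv (fun s => HH c x p s) t| ≤ C * (1 + |HH c x p t|)

/-- **LEG2.**  `S_LEG` with two more conclusions: the formula for `L`, and `∂L/∂t = -∂H/∂t` (same proof as for
`x`). -/
def S_LEG2 : Prop := ∀ (m : ℕ) (H : X m → X m → ℝ → ℝ), ContDiff ℝ ∞ (U H) →
  (∀ (q : X m × X m × ℝ) (w : X m), w ≠ 0 → 0 < HS (U H) q w) → Sup H →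
  (∀ R : ℝ, ∃ B : ℝ, ∀ (x p : X m) (t : ℝ), ‖p‖ ≤ R → H x p t ≤ B) → PerL H →
  ∃ (L : X m → X m → ℝ → ℝ) (P : X m → X m → ℝ → X m),
    ContDiff ℝ ∞ (U L) ∧ ContDiff ℝ ∞ (fun q : X m × X m × ℝ => P q.1 q.2.1 q.2.2) ∧
    (∀ x v t i, Lv L i x v t = P x v t i) ∧
    (∀ x v t i, Lx L i x v t = -Lx H i x (P x v t) t) ∧
    (∀ x v t i, Lv H i x (P x v t) t = v i) ∧
    (∀ x p t, P x (fun i => Lv H i x p t) t = p) ∧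
    (∀ (q : X m × X m × ℝ) (w : X m), w ≠ 0 → 0 < HS (U L) q w) ∧ Sup L ∧ PerL L ∧
    (∀ x v t, L x v t = ∑ i, v i * P x v t i - H x (P x v t) t) ∧
    ∀ x v t, Lt L x v t = -Lt H x (P x v t) t

/-- **GLUE2.**  `S_GLUE` with one more conclusion: the energy criterion for `Y` and `L₀` implies it for `L`.
Proof.  For `x ∉ Tube (ε/2)` the functions `L x` and `L₀ x` of `(v,t)` are equal.  For `x` in `Tube (ε/2)`: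
`L = χ₂(x) B + (1 - χ₂(x)) L₀` with `B = Y + c` for `‖v‖ ≥ R'`.
(i) `‖v‖ ≤ R' + 1`: `∂L/∂t` is continuous on the tube, periodic in `(x_0,t)` (so is `∂L/∂t`), hence bounded for
`|x_i| ≤ ε/2`, `‖v‖ ≤ R' + 1` by compactness.
(ii) `‖v‖ > R'`: `∂L/∂t = χ₂ ∂Y/∂t + (1-χ₂) ∂L₀/∂t`, `En L = χ₂ (En Y - c) + (1-χ₂) En L₀`.  By convexity
`En Y ≥ -Y(x,0,t) ≥ -C₁`, `En L₀ ≥ -L₀(x,0,t) ≥ -C₁` (`g(s) = L(x,s v,t)` is convex, so `g'(1) - g(1) ≥ -g(0)`;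
boundedness of `L₀(x,0,t)` for `|x_i| ≤ ε/2` by compactness), so `|En Y| ≤ En Y + 2 C₁`, `|En L₀| ≤ En L₀ + 2 C₁`
and `|∂L/∂t| ≤ C (1 + 2 C₁ + |c| + En L)` with the larger of the two constants. -/
def S_GLUE2 : Prop := ∀ (m : ℕ) (k : ℕ∞) (ε : ℝ), 2 ≤ k → 0 < ε → ε ≤ 1 / 4 →
  ∀ L₀ : X m → X m → ℝ → ℝ, OnTube k ε L₀ →
  ∀ Y : X m → X m → ℝ → ℝ, ContDiff ℝ ∞ (U Y) → PerL Y →
  (∀ (q : X m × X m × ℝ) (w : X m), w ≠ 0 → 0 < HS (U Y) q w) → Sup Y →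
  ∀ R : ℝ, ∃ L : X m → X m → ℝ → ℝ, OnTube k ε L ∧
    (∀ x v t, (x ∉ Tube m (ε / 2) ∨ ‖v‖ ≤ R) → L x v t = L₀ x v t) ∧
    (SupOn ε L₀ → SupOn ε L) ∧
    (∃ R' c : ℝ, ∀ x v t, x ∈ Tube m (ε / 4) → R' ≤ ‖v‖ → L x v t = Y x v t + c) ∧
    ((∃ C : ℝ, ∀ (x v : X m) (t : ℝ), |Lt Y x v t| ≤ C * (1 + |En Y x v t|)) →
      Gro ε L₀ → Gro ε L)

/-- the main theorem with the energy criterion. -/
def S_MAIN2 : Prop := ∀ (m : ℕ) (k : ℕ∞) (ε : ℝ), 2 ≤ k → 0 < ε → ε ≤ 1 / 4 →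
  ∀ L₀ : X m → X m → ℝ → ℝ, OnTube k ε L₀ → ∀ R : ℝ,
  ∃ L : X m → X m → ℝ → ℝ, OnTube k ε L ∧
    (∀ x v t, (x ∉ Tube m (ε / 2) ∨ ‖v‖ ≤ R) → L x v t = L₀ x v t) ∧
    (SupOn ε L₀ → SupOn ε L) ∧ (Gro ε L₀ → Gro ε L) ∧
    ∀ G : ℝ, ∃ (t₀ : ℝ) (W : Set (X m × X m)), IsOpen W ∧ W.Nonempty ∧
      (∀ q ∈ W, q.1 ∈ Tube m (ε / 4)) ∧
      ∀ f : X m → ℝ → ℝ, ContDiff ℝ 2 (fun q : X m × ℝ => f q.1 q.2) →
        (∀ i x t, |Df f i x t| ≤ G) →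
        (∀ q ∈ W, ∃ γ : ℝ → X m, γ t₀ = q.1 ∧ deriv γ t₀ = q.2 ∧
          ∀ t, t₀ ≤ t → ELat (fun x v t => L x v t + f x t) γ t ∧ γ t ∈ Tube m (ε / 4) ∧
            t - 5 / 2 ≤ deriv γ t 0) ∧
        ∀ (γ : ℝ → X m) (T : ℝ), (γ t₀, deriv γ t₀) ∈ W →
          (∀ t ∈ Ico t₀ T, γ t ∈ Tube m ε ∧ ELat (fun x v t => L x v t + f x t) γ t) →
          ∀ t ∈ Ico t₀ T, γ t ∈ Tube m (ε / 4) ∧ t - 5 / 2 ≤ deriv γ t 0

end Pool.Agent.Run7.h506.TA
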