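import Pool.Agent.Run7.h506.TA.Fin
import Pool.Agent.Run7.h506.TA.Stm2

/-!
Project TA: assembly of the main theorem, second version (with the energy criterion).
-/

set_option autoImplicit false

namespace Pool.Agent.Run7.h506.TA

open Pool.Agent.W774.TL Set Filter Topology
open scoped ContDiff

theorem t_MAIN2 (hDYN : S_DYN) (hHSM : S_HSM) (hHPOS : S_HPOS) (hHSUP : S_HSUP) (hLEG : S_LEG2)
    (hGLUE : S_GLUE2) (hEXI : S_EXI) (hHGR : S_HGR) : S_MAIN2 := by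
  intro m k ε hk hε hε4 L₀ hL₀ R
  obtain ⟨c, hc, hpos⟩ := hHPOS m
  obtain ⟨hH, hHper, -⟩ := hHSM m c hc
  obtain ⟨hHs, hHb⟩ := hHSUP m c hc
  obtain ⟨Y, P, hY, hP, hYv, hYx, hHv, hPH, hYpos, hYs, hYper, hYf, hYt⟩ :=
    hLEG m (HH c) hH hpos hHs hHb hHper
  obtain ⟨L, hL, hLeq, hLs, ⟨R', cc, hLY⟩, hgro⟩ :=
    hGLUE m k ε hk hε hε4 L₀ hL₀ Y hY hYper hYpos hYs R
  have hgY : ∃ C : ℝ, ∀ (x v : X m) (t : ℝ), |Lt Y x v t| ≤ C * (1 + |En Y x v t|) := by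
    obtain ⟨C, hC⟩ := hHGR m c hc
    refine ⟨C, fun x v t => ?_⟩
    have h1 : En Y x v t = HH c x (P x v t) t := by
      have h2 : ∀ i, Lv Y i x v t = P x v t i := fun i => hYv x v t i
      simp only [En, h2]
      rw [hYf x v t]
      ring
    rw [h1, hYt, abs_neg]
    exact hC x (P x v t) t
  refine ⟨L, hL, hLeq, hLs, hgro hgY, ?_⟩
  intro G
  obtain ⟨k0, hk0⟩ := hDYN m c |G| (ε / 8) hc (abs_nonneg G) (by linarith) (by linarith)
  set k1 : ℕ := max k0 (⌈|R'|⌉₊ + 4) with hk1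
  have hk1R : R' + 4 ≤ (k1 : ℝ) := by
    have h1 : ((⌈|R'|⌉₊ + 4 : ℕ) : ℝ) ≤ (k1 : ℝ) := by exact_mod_cast le_max_right _ _
    have h2 : |R'| ≤ (⌈|R'|⌉₊ : ℝ) := Nat.le_ceil _
    push_cast at h1
    linarith [le_abs_self R']
  obtain ⟨ρ, hρ, hdyn⟩ := hk0 k1 (le_max_left _ _)
  set t₀ : ℝ := (k1 : ℝ) + 1 / 2 with ht₀
  have hRt : R' < t₀ - 5 / 2 := by rw [ht₀]; linarith
  -- existence of global solutions of the Hamiltonian system, and their behaviour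
  have hsol : ∀ f : X m → ℝ → ℝ, ContDiff ℝ 2 (fun q : X m × ℝ => f q.1 q.2) →
      (∀ i x t, |Df f i x t| ≤ |G|) → ∀ x0 p0 : X m, Init k1 ρ x0 p0 →
      ∃ x p : ℝ → X m, x t₀ = x0 ∧ p t₀ = p0 ∧
        (∀ t, HasDerivAt x (fun i => Lv (HH c) i (x t) (p t) t) t ∧
          HasDerivAt p (fun i => -Lx (HH c) i (x t) (p t) t + Df f i (x t) t) t) ∧
        ∀ t, t₀ ≤ t → t - 5 / 2 ≤ deriv x t 0 ∧ ∀ i : Fin m, |x t i.succ| < ε / 8 := by
    intro f hf hG x0 p0 hI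
    obtain ⟨x, p, hx, hp, hs⟩ := hEXI m c |G| hc f hf hG t₀ x0 p0
    refine ⟨x, p, hx, hp, hs, ?_⟩
    intro t ht
    have hham : HamSol c |G| x p (fun t i => Df f i (x t) t) (Icc t₀ t) :=
      toHam hHSM hc fun s _ => ⟨(hs s).1, (hs s).2, fun i => hG i _ s⟩
    have h1 := hdyn t ht x p _ hham (by rw [hx, hp]; exact hI) t ⟨ht, le_rfl⟩
    refine ⟨?_, h1.2⟩
    rw [(hs t).1.deriv]
    show t - 5 / 2 ≤ Lv (HH c) 0 (x t) (p t) t
    rw [((hHSM m c hc).2.2 (x t) (p t) t).1]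
    exact h1.1
  have hgoodR : ∀ {v : X m} {t : ℝ}, t₀ ≤ t → t - 5 / 2 ≤ v 0 → R' < ‖v‖ := by
    intro v t h1 h2
    have h3 : v 0 ≤ ‖v‖ := (le_abs_self _).trans (norm_le_pi_norm v (0 : Fin (m + 1)))
    linarith
  set W : Set (X m × X m) := {q | q.1 ∈ Tube m (ε / 4) ∧ R' < ‖q.2‖ ∧
    |q.1 0 - k1 * (k1 + 1 / 2)| < 1 / 1000 ∧ |P q.1 q.2 t₀ 0 - 3 ^ k1| < 3 ^ k1 / 1000 ∧
    ∀ i : Fin m, |q.1 i.succ| < ρ ∧ |P q.1 q.2 t₀ i.succ| < ρ} with hW
  have hPc : Continuous (fun q : X m × X m => P q.1 q.2 t₀) := by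
    have h1 : Continuous (fun q : X m × X m => ((q.1, q.2, t₀) : X m × X m × ℝ)) := by fun_prop
    exact hP.continuous.comp h1
  have hPci : ∀ i, Continuous (fun q : X m × X m => P q.1 q.2 t₀ i) := fun i =>
    (continuous_apply i).comp hPc
  have hx0c : Continuous (fun q : X m × X m => |q.1 0 - (k1 : ℝ) * (k1 + 1 / 2)|) :=
    (((continuous_apply (0 : Fin (m + 1))).comp continuous_fst).sub continuous_const).abs
  refine ⟨t₀, W, ?_, ?_, fun q hq => hq.1, ?_⟩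
  · have hset : W = {q | q.1 ∈ Tube m (ε / 4)} ∩ ({q | R' < ‖q.2‖} ∩
        ({q | |q.1 0 - (k1 : ℝ) * (k1 + 1 / 2)| < 1 / 1000} ∩
        ({q | |P q.1 q.2 t₀ 0 - 3 ^ k1| < 3 ^ k1 / 1000} ∩
        ⋂ i : Fin m, {q | |q.1 i.succ| < ρ ∧ |P q.1 q.2 t₀ i.succ| < ρ}))) := by
      ext q; simp [hW]
    rw [hset]
    refine ((tube_open m (ε / 4)).preimage continuous_fst).inter
      ((isOpen_lt continuous_const continuous_snd.norm).inter
      ((isOpen_lt hx0c continuous_const).inter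
      ((isOpen_lt (((hPci 0).sub continuous_const).abs) continuous_const).inter
      (isOpen_iInter_of_finite fun i => ?_))))
    have hxi : Continuous (fun q : X m × X m => |q.1 i.succ|) :=
      ((continuous_apply i.succ).comp continuous_fst).abs
    exact (isOpen_lt hxi continuous_const).inter
      (isOpen_lt (hPci i.succ).abs continuous_const)
  · -- a point of `W`
    set x1 : X m := Fin.cons ((k1 : ℝ) * (k1 + 1 / 2)) 0 with hx1
    set p1 : X m := Fin.cons ((3 : ℝ) ^ k1) 0 with hp1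
    have e1 : x1 0 = (k1 : ℝ) * (k1 + 1 / 2) := rfl
    have e2 : ∀ i : Fin m, x1 i.succ = 0 := fun i => rfl
    have e3 : p1 0 = (3 : ℝ) ^ k1 := rfl
    have e4 : ∀ i : Fin m, p1 i.succ = 0 := fun i => rfl
    have hI : Init k1 ρ x1 p1 := by
      refine ⟨by rw [e1]; simp, by rw [e3, sub_self, abs_zero]; positivity, fun i => ?_⟩
      rw [e2, e4, abs_zero]
      exact ⟨hρ.le, hρ.le⟩
    have hz : ∀ i x t, |Df (fun (_ : X m) (_ : ℝ) => (0 : ℝ)) i x t| ≤ |G| := by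
      intro i x t
      simp [Df]
    obtain ⟨x, p, hx, hp, hs, hb⟩ := hsol (fun _ _ => 0) contDiff_const hz x1 p1 hI
    have h1 := (hb t₀ le_rfl).1
    have h2 : deriv x t₀ = fun i => Lv (HH c) i x1 p1 t₀ := by rw [(hs t₀).1.deriv, hx, hp]
    refine ⟨(x1, deriv x t₀), ?_, ?_, ?_, ?_, ?_⟩
    · intro i
      show |x1 i.succ| < ε / 4
      rw [e2, abs_zero]
      positivity
    · exact hgoodR le_rfl h1
    · show |x1 0 - _| < _
      rw [e1]; simp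
    · show |P x1 (deriv x t₀) t₀ 0 - _| < _
      rw [h2, hPH, e3, sub_self, abs_zero]
      positivity
    · intro i
      show |x1 i.succ| < ρ ∧ |P x1 (deriv x t₀) t₀ i.succ| < ρ
      rw [h2, hPH, e2, e4, abs_zero]
      exact ⟨hρ, hρ⟩
  · intro f hf hG
    have hG' : ∀ i x t, |Df f i x t| ≤ |G| := fun i x t => (hG i x t).trans (le_abs_self G)
    have hInit : ∀ q ∈ W, Init k1 ρ q.1 (P q.1 q.2 t₀) := by
      intro q hq
      obtain ⟨-, -, h3, h4, h5⟩ := hq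
      exact ⟨h3.le, h4.le, fun i => ⟨(h5 i).1.le, (h5 i).2.le⟩⟩
    constructor
    · intro q hq
      obtain ⟨x, p, hx, hp, hs, hb⟩ := hsol f hf hG' q.1 (P q.1 q.2 t₀) (hInit q hq)
      refine ⟨x, hx, ?_, ?_⟩
      · rw [(hs t₀).1.deriv, hx, hp]
        exact funext fun i => hHv _ _ _ i
      · intro t ht
        obtain ⟨h1, h2⟩ := hb t ht
        have h3 : x t ∈ Tube m (ε / 4) := fun i => (h2 i).trans (by linarith)
        exact ⟨el_of_ham hH hY hYv hYx hPH hLY hf hs ⟨h3, hgoodR ht h1⟩, h3, h1⟩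
    · intro γ T hγW hγ
      have hcont : ∀ t ∈ Ico t₀ T, ContinuousAt γ t ∧ ContinuousAt (deriv γ) t := by
        intro t ht
        obtain ⟨-, h1, h2, -⟩ := hγ t ht
        exact ⟨(h1.self_of_nhds).continuousAt, h2⟩
      have hstep : ∀ s, t₀ ≤ s → s < T → (∀ t ∈ Icc t₀ s, Good m ε R' (γ t) (deriv γ t)) →
          s - 5 / 2 ≤ deriv γ s 0 ∧ ∀ i : Fin m, |γ s i.succ| < ε / 8 := by
        intro s h1 h2 h3
        have hham := ham_of_el (I := Icc t₀ s) hHSM hc hY hYv hYx hHv hLY hf hG'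
          (fun t ht => ⟨(hγ t ⟨ht.1, lt_of_le_of_lt ht.2 h2⟩).2, h3 t ht⟩)
        have h4 := hdyn s h1 γ _ _ hham (hInit _ hγW) s ⟨h1, le_rfl⟩
        refine ⟨?_, h4.2⟩
        have h5 := ((hHSM m c hc).2.2 (γ s) (P (γ s) (deriv γ s) s) s).1
        have h6 := h4.1
        rw [← h5, hHv] at h6
        exact h6
      have hall := no_exit hε hRt ⟨hγW.1, hγW.2.1⟩ hcont hstep
      intro t ht
      refine ⟨(hall t ht).1, ?_⟩
      exact (hstep t ht.1 ht.2 fun s hs => hall s ⟨hs.1, lt_of_le_of_lt hs.2 ht.2⟩).1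

end Pool.Agent.Run7.h506.TA
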