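import Pool.Agent.Run7.h88.TA.LEG
import Pool.Agent.Run7.h506.TA.Stm2

/-!
Project TA, piece LEG2: the proof of helper88 for LEG with two more conclusions.
-/

set_option autoImplicit false

namespace Pool.Agent.Run7.h506.TA.L2

open Pool.Agent.W774.TL Pool.Agent.Run7.h506.TA Pool.Agent.Run7.h88.TA Set Filter Topology
open Pool.Agent.TH217.TL hiding Sup
open scoped ContDiff

variable {m : ℕ}

lemma Lt_eq {L : X m → X m → ℝ → ℝ} (h : ContDiff ℝ ∞ (U L)) (x v : X m) (t : ℝ) :
    Lt L x v t = fderiv ℝ (U L) (x, v, t) (0, 0, 1) := by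
  have h1 : HasFDerivAt (U L) (fderiv ℝ (U L) (x, v, t)) (x, v, t) :=
    ((h.differentiable (by simp)) _).hasFDerivAt
  have h2 : HasDerivAt (fun s : ℝ => ((x, v, s) : X m × X m × ℝ)) (0, 0, 1) t :=
    (hasDerivAt_const _ x).prodMk ((hasDerivAt_const _ v).prodMk (hasDerivAt_id t))
  exact (h1.comp_hasDerivAt t h2).deriv

theorem t_LEG2 : S_LEG2 := by
  intro m H h hpos hs hbd hper
  have hp : Pos H := pos_of h hpos
  have hs' : Pool.Agent.TH217.TL.Sup H := hs
  obtain ⟨W, hW, hinv, hv⟩ := leg_inf h hp hs'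
  have hL : Sm (LL H W) := sm_of (LL_cd h hW)
  have hz : ∀ z : (X m × X m × ℝ) →L[ℝ] ℝ, z ((0 : X m), (0 : X m), (0 : ℝ)) = 0 :=
    fun z => z.map_zero
  refine ⟨LL H W, fun x v t => W (x, v, t), LL_cd h hW, hW, ?_, ?_, hv, hinv, ?_, ?_, ?_,
    fun x v t => rfl, ?_⟩
  · intro x v t i
    rw [Lv_eq hL i, LL_fd h hW hv]
    simp only
    rw [hz, sub_zero]
    simp [Pi.single_apply]
  · intro x v t i
    rw [Lx_eq hL i, LL_fd h hW hv, Lx_eq (sm_of h) i]
    simp
  · intro q w hw
    obtain ⟨h1, h2⟩ := LL_hess h hW hv q w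
    rw [h1]
    apply hpos
    intro h0
    apply hw
    funext i
    rw [← h2 i, h0]
    have : fderiv ℝ (fderiv ℝ (UU H)) (q.1, W q, q.2.2) ((0 : X m), (0 : X m), (0 : ℝ)) = 0 :=
      (fderiv ℝ (fderiv ℝ (UU H)) (q.1, W q, q.2.2)).map_zero
    rw [this]
    rfl
  · intro R
    obtain ⟨B, hB⟩ := hbd |R|
    refine ⟨B, fun x v t => ?_⟩
    obtain ⟨p, hp1, hp2⟩ := exists_min (sm_of h) hs' x v t
    have hpW : W (x, v, t) = p := by
      have := hinv x p t
      rwa [show (fun i => Lv H i x p t) = v from funext hp2] at this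
    obtain ⟨i, hi⟩ := exists_norm_eq v
    have h1 := hp1 (Pi.single i (|R| * SignType.sign (v i)))
    have h2 : ∑ j, v j * (Pi.single i (|R| * (SignType.sign (v i) : ℝ)) : X m) j
        = |R| * ‖v‖ := by
      rw [Finset.sum_eq_single i]
      · rw [Pi.single_eq_same, ← hi]
        have : v i * (|R| * (SignType.sign (v i) : ℝ))
            = |R| * ((SignType.sign (v i) : ℝ) * v i) := by ring
        rw [this, sign_mul_self]
      · intro j _ hj
        rw [Pi.single_eq_of_ne hj, mul_zero]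
      · intro hj
        exact absurd (Finset.mem_univ i) hj
    have h3 : ‖(Pi.single i (|R| * (SignType.sign (v i) : ℝ)) : X m)‖ ≤ |R| := by
      rw [pi_norm_le_iff_of_nonneg (abs_nonneg R)]
      intro j
      by_cases hj : j = i
      · subst hj
        rw [Pi.single_eq_same, norm_mul, Real.norm_eq_abs, abs_abs]
        have : ‖(SignType.sign (v j) : ℝ)‖ ≤ 1 := by
          rcases lt_trichotomy (v j) 0 with h | h | h
          · rw [sign_neg h]; simp
          · rw [h]; simp
          · rw [sign_pos h]; simp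
        nlinarith [abs_nonneg R]
      · rw [Pi.single_eq_of_ne hj, norm_zero]
        exact abs_nonneg R
    have h4 := hB x _ t h3
    have h5 : LL H W x v t = ∑ i, v i * p i - H x p t := by
      unfold LL
      rw [hpW]
    rw [h5]
    rw [h2] at h1
    have h6 : R * ‖v‖ ≤ |R| * ‖v‖ := mul_le_mul_of_nonneg_right (le_abs_self R) (norm_nonneg _)
    linarith
  · intro x v t k l
    have h1 : W (fun i => x i + k i, v, t + l) = W (x, v, t) := by
      have h2 := hinv (fun i => x i + k i) (W (x, v, t)) (t + l)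
      have h3 : (fun i => Lv H i (fun i => x i + k i) (W (x, v, t)) (t + l)) = v := by
        funext i
        rw [per_Lv hper, hv]
      rwa [h3] at h2
    unfold LL
    rw [h1, hper]
  · intro x v t
    rw [Lt_eq (LL_cd h hW), Lt_eq h]
    have h1 := LL_fd h hW hv (x, v, t) (0, 0, 1)
    have h2 : UU (LL H W) = U (LL H W) := rfl
    have h3 : UU H = U H := rfl
    rw [h2, h3] at h1
    rw [h1]
    simp

end Pool.Agent.Run7.h506.TA.L2
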