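import Pool.Agent.Run7.h506.TA.All
import Pool.Agent.Run7.h506.TA.Fin2
import Pool.Agent.Run7.h506.TA.LEG2
import Pool.Agent.Run7.h594.TA.GLUE2
import Pool.Agent.Run7.h594.TA.HGR
import Pool.Agent.Run7.h760.TA.GRT

/-!
Project TA: the pieces put together, with the energy criterion.
-/

set_option autoImplicit false

namespace Pool.Agent.Run7.h506.TA

theorem main2 : S_MAIN2 :=
  t_MAIN2 dyn hsm (Pool.Agent.Run7.h64.TA.t_HPOS kf hsm) (Pool.Agent.Run7.h171.TA.t_HSUP kf)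
    L2.t_LEG2 Run7.h594.TA.t_GLUE2 (EXI858.t_EXI hsm kf)
    (Run7.h594.TA.t_HGR Run7.h760.TA.t_GRT kf)

end Pool.Agent.Run7.h506.TA
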