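import Pool.Agent.Run7.h506.TA.Stm

/-!
Project TA: assembly of the main theorem.
-/

set_option autoImplicit false

namespace Pool.Agent.Run7.h506.TA

open Pool.Agent.W774.TL Set Filter Topology
open scoped ContDiff

section

variable {m : ℕ}

lemma upd_v (x v : X m) (t : ℝ) (i : Fin (m + 1)) :
    HasDerivAt (fun s : ℝ => ((x, Function.update v i s, t) : X m × X m × ℝ))
      (0, Pi.single i 1, 0) (v i) :=
  (hasDerivAt_const _ x).prodMk ((hasDerivAt_update v i (v i)).prodMk (hasDerivAt_const _ t))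

lemma upd_x (x v : X m) (t : ℝ) (i : Fin (m + 1)) :
    HasDerivAt (fun s : ℝ => ((Function.update x i s, v, t) : X m × X m × ℝ))
      (Pi.single i 1, 0, 0) (x i) :=
  (hasDerivAt_update x i (x i)).prodMk ((hasDerivAt_const _ v).prodMk (hasDerivAt_const _ t))

lemma Lv_hd {L : X m → X m → ℝ → ℝ} (h : ContDiff ℝ ∞ (U L)) (i : Fin (m + 1)) (x v : X m) (t : ℝ) :
    HasDerivAt (fun s => L x (Function.update v i s) t)
      (fderiv ℝ (U L) (x, v, t) (0, Pi.single i 1, 0)) (v i) := by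
  have h1 : HasFDerivAt (U L) (fderiv ℝ (U L) (x, v, t)) (x, Function.update v i (v i), t) := by
    rw [Function.update_eq_self]
    exact ((h.differentiable (by simp)) _).hasFDerivAt
  exact h1.comp_hasDerivAt (v i) (upd_v x v t i)

lemma Lx_hd {L : X m → X m → ℝ → ℝ} (h : ContDiff ℝ ∞ (U L)) (i : Fin (m + 1)) (x v : X m) (t : ℝ) :
    HasDerivAt (fun s => L (Function.update x i s) v t)
      (fderiv ℝ (U L) (x, v, t) (Pi.single i 1, 0, 0)) (x i) := by
  have h1 : HasFDerivAt (U L) (fderiv ℝ (U L) (x, v, t)) (Function.update x i (x i), v, t) := by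
    rw [Function.update_eq_self]
    exact ((h.differentiable (by simp)) _).hasFDerivAt
  exact h1.comp_hasDerivAt (x i) (upd_x x v t i)

lemma Lv_eq {L : X m → X m → ℝ → ℝ} (h : ContDiff ℝ ∞ (U L)) (i : Fin (m + 1)) (x v : X m) (t : ℝ) :
    Lv L i x v t = fderiv ℝ (U L) (x, v, t) (0, Pi.single i 1, 0) := (Lv_hd h i x v t).deriv

lemma Lv_cont {L : X m → X m → ℝ → ℝ} (h : ContDiff ℝ ∞ (U L)) (i : Fin (m + 1)) :
    Continuous (fun q : X m × X m × ℝ => Lv L i q.1 q.2.1 q.2.2) := by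
  have he : (fun q : X m × X m × ℝ => Lv L i q.1 q.2.1 q.2.2)
      = fun q => fderiv ℝ (U L) q (0, Pi.single i 1, 0) := funext fun q => Lv_eq h i _ _ _
  rw [he]
  exact (h.continuous_fderiv (by simp)).clm_apply continuous_const

lemma f_hd {f : X m → ℝ → ℝ} (hf : ContDiff ℝ 2 (fun q : X m × ℝ => f q.1 q.2)) (i : Fin (m + 1))
    (x : X m) (t : ℝ) : HasDerivAt (fun s => f (Function.update x i s) t) (Df f i x t) (x i) := by
  have h1 : DifferentiableAt ℝ (fun q : X m × ℝ => f q.1 q.2) (Function.update x i (x i), t) :=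
    (hf.differentiable (by norm_num)) _
  have h2 : HasDerivAt (fun s : ℝ => ((Function.update x i s, t) : X m × ℝ))
      (Pi.single i 1, 0) (x i) := (hasDerivAt_update x i (x i)).prodMk (hasDerivAt_const _ t)
  have h3 := h1.hasFDerivAt.comp_hasDerivAt (x i) h2
  have h4 : HasDerivAt (fun s => f (Function.update x i s) t) _ (x i) := h3
  exact h4.differentiableAt.hasDerivAt

lemma tube_open (m : ℕ) (ε : ℝ) : IsOpen (Tube m ε) := by
  have : Tube m ε = ⋂ i : Fin m, {x : X m | |x i.succ| < ε} := by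
    ext x; simp [Tube]
  rw [this]
  exact isOpen_iInter_of_finite fun i => isOpen_lt (by fun_prop) continuous_const

/-- first order agreement of `L + f` and `Y + f` in the good region. -/
lemma good_Lv {L Y : X m → X m → ℝ → ℝ} {f : X m → ℝ → ℝ} {ε R' cc : ℝ}
    (hLY : ∀ x v t, x ∈ Tube m ε → R' ≤ ‖v‖ → L x v t = Y x v t + cc)
    {x v : X m} {t : ℝ} (hx : x ∈ Tube m ε) (hv : R' < ‖v‖) (i : Fin (m + 1)) :
    Lv (fun x v t => L x v t + f x t) i x v t = Lv Y i x v t := by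
  unfold Lv
  have h1 : ∀ᶠ s in 𝓝 (v i), R' < ‖Function.update v i s‖ := by
    have hc : ContinuousAt (fun s : ℝ => ‖Function.update v i s‖) (v i) :=
      (hasDerivAt_update v i (v i)).continuousAt.norm
    refine hc.eventually_const_lt ?_
    show R' < ‖Function.update v i (v i)‖
    rwa [Function.update_eq_self]
  have h2 : (fun s => L x (Function.update v i s) t + f x t)
      =ᶠ[𝓝 (v i)] fun s => Y x (Function.update v i s) t + (cc + f x t) := by
    filter_upwards [h1] with s hs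
    rw [hLY x _ t hx hs.le]
    ring
  rw [h2.deriv_eq, deriv_add_const]

lemma good_Lx {L Y : X m → X m → ℝ → ℝ} {f : X m → ℝ → ℝ} {ε R' cc : ℝ}
    (hY : ContDiff ℝ ∞ (U Y)) (hf : ContDiff ℝ 2 (fun q : X m × ℝ => f q.1 q.2))
    (hLY : ∀ x v t, x ∈ Tube m ε → R' ≤ ‖v‖ → L x v t = Y x v t + cc)
    {x v : X m} {t : ℝ} (hx : x ∈ Tube m ε) (hv : R' < ‖v‖) (i : Fin (m + 1)) :
    Lx (fun x v t => L x v t + f x t) i x v t = Lx Y i x v t + Df f i x t := by
  have h1 : ∀ᶠ s in 𝓝 (x i), Function.update x i s ∈ Tube m ε := by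
    have hc : ContinuousAt (fun s : ℝ => Function.update x i s) (x i) :=
      (hasDerivAt_update x i (x i)).continuousAt
    refine hc.eventually_mem ((tube_open m ε).mem_nhds ?_)
    rwa [Function.update_eq_self]
  have h2 : (fun s => L (Function.update x i s) v t + f (Function.update x i s) t)
      =ᶠ[𝓝 (x i)] fun s => Y (Function.update x i s) v t + cc + f (Function.update x i s) t := by
    filter_upwards [h1] with s hs
    rw [hLY _ v t hs hv.le]
  show deriv (fun s => L (Function.update x i s) v t + f (Function.update x i s) t) (x i) = _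
  rw [h2.deriv_eq]
  have h3 := ((Lx_hd hY i x v t).add_const cc).add (f_hd hf i x t)
  have h4 : Lx Y i x v t = fderiv ℝ (U Y) (x, v, t) (Pi.single i 1, 0, 0) :=
    (Lx_hd hY i x v t).deriv
  rw [h4]
  exact h3.deriv

lemma toHam (hHSM : S_HSM) {c G : ℝ} (hc : 0 < c) {x p g : ℝ → X m} {I : Set ℝ}
    (h : ∀ t ∈ I, HasDerivAt x (fun i => Lv (HH c) i (x t) (p t) t) t ∧
      HasDerivAt p (fun i => -Lx (HH c) i (x t) (p t) t + g t i) t ∧ ∀ i, |g t i| ≤ G) :
    HamSol c G x p g I := by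
  intro t ht
  obtain ⟨h1, h2, h3⟩ := h t ht
  obtain ⟨-, -, h4⟩ := hHSM m c hc
  obtain ⟨a1, a2, a3⟩ := h4 (x t) (p t) t
  rw [hasDerivAt_pi] at h1 h2
  refine ⟨?_, ?_, ?_, h3⟩
  · rw [← a1]; exact h1 0
  · have := h2 0
    rw [a2, neg_neg] at this
    exact this
  · intro i
    obtain ⟨b1, b2⟩ := a3 i
    constructor
    · rw [← b1]; exact h1 i.succ
    · have := h2 i.succ
      rw [b2] at this
      exact this

/-- the good region. -/
def Good (m : ℕ) (ε R' : ℝ) (x v : X m) : Prop := x ∈ Tube m (ε / 4) ∧ R' < ‖v‖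

lemma good_open (m : ℕ) (ε R' : ℝ) : IsOpen {q : X m × X m | Good m ε R' q.1 q.2} := by
  have h1 : IsOpen {q : X m × X m | q.1 ∈ Tube m (ε / 4)} :=
    (tube_open m (ε / 4)).preimage continuous_fst
  have h2 : IsOpen {q : X m × X m | R' < ‖q.2‖} := isOpen_lt continuous_const (by fun_prop)
  exact h1.inter h2

/-- an orbit in the good region is a solution of the Hamiltonian system. -/
lemma ham_of_el (hHSM : S_HSM) {c G : ℝ} (hc : 0 < c) {L Y : X m → X m → ℝ → ℝ}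
    {P : X m → X m → ℝ → X m} (hY : ContDiff ℝ ∞ (U Y))
    (hYv : ∀ x v t i, Lv Y i x v t = P x v t i)
    (hYx : ∀ x v t i, Lx Y i x v t = -Lx (HH c) i x (P x v t) t)
    (hHv : ∀ x v t i, Lv (HH c) i x (P x v t) t = v i)
    {ε R' cc : ℝ} (hLY : ∀ x v t, x ∈ Tube m (ε / 4) → R' ≤ ‖v‖ → L x v t = Y x v t + cc)
    {f : X m → ℝ → ℝ} (hf : ContDiff ℝ 2 (fun q : X m × ℝ => f q.1 q.2))
    (hG : ∀ i x t, |Df f i x t| ≤ G) {γ : ℝ → X m} {I : Set ℝ}
    (h : ∀ t ∈ I, ELat (fun x v t => L x v t + f x t) γ t ∧ Good m ε R' (γ t) (deriv γ t)) :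
    HamSol c G γ (fun s => P (γ s) (deriv γ s) s) (fun t i => Df f i (γ t) t) I := by
  refine toHam hHSM hc ?_
  intro t ht
  obtain ⟨⟨h1, h2, h3⟩, h4⟩ := h t ht
  have hγ : HasDerivAt γ (deriv γ t) t := (h1.self_of_nhds).hasDerivAt
  have hev : ∀ᶠ s in 𝓝 t, Good m ε R' (γ s) (deriv γ s) := by
    have hc : ContinuousAt (fun s => (γ s, deriv γ s)) t := hγ.continuousAt.prodMk h2
    exact hc.eventually_mem ((good_open m ε R').mem_nhds h4)
  refine ⟨?_, ?_, fun i => hG i _ t⟩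
  · have : (fun i => Lv (HH c) i (γ t) (P (γ t) (deriv γ t) t) t) = deriv γ t :=
      funext fun i => hHv _ _ _ i
    rw [this]
    exact hγ
  · rw [hasDerivAt_pi]
    intro i
    have h5 := h3 i
    rw [good_Lx hY hf hLY h4.1 h4.2 i, hYx] at h5
    refine h5.congr_of_eventuallyEq ?_
    filter_upwards [hev] with s hs
    rw [good_Lv hLY hs.1 hs.2 i, hYv]

/-- a solution of the Hamiltonian system in the good region is an orbit. -/
lemma el_of_ham {c : ℝ} {L Y : X m → X m → ℝ → ℝ}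
    {P : X m → X m → ℝ → X m} (hH : ContDiff ℝ ∞ (U (HH (m := m) c))) (hY : ContDiff ℝ ∞ (U Y))
    (hYv : ∀ x v t i, Lv Y i x v t = P x v t i)
    (hYx : ∀ x v t i, Lx Y i x v t = -Lx (HH c) i x (P x v t) t)
    (hPH : ∀ x p t, P x (fun i => Lv (HH c) i x p t) t = p)
    {ε R' cc : ℝ} (hLY : ∀ x v t, x ∈ Tube m (ε / 4) → R' ≤ ‖v‖ → L x v t = Y x v t + cc)
    {f : X m → ℝ → ℝ} (hf : ContDiff ℝ 2 (fun q : X m × ℝ => f q.1 q.2))
    {x p : ℝ → X m} (hs : ∀ t, HasDerivAt x (fun i => Lv (HH c) i (x t) (p t) t) t ∧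
      HasDerivAt p (fun i => -Lx (HH c) i (x t) (p t) t + Df f i (x t) t) t)
    {t : ℝ} (hg : Good m ε R' (x t) (deriv x t)) :
    ELat (fun x v t => L x v t + f x t) x t := by
  have hd : deriv x = fun t i => Lv (HH c) i (x t) (p t) t := funext fun t => (hs t).1.deriv
  have hxc : Continuous x := continuous_iff_continuousAt.2 fun t => (hs t).1.continuousAt
  have hpc : Continuous p := continuous_iff_continuousAt.2 fun t => (hs t).2.continuousAt
  have hdc : Continuous (deriv x) := by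
    rw [hd]
    refine continuous_pi fun i => ?_
    have h1 : Continuous (fun t : ℝ => ((x t, p t, t) : X m × X m × ℝ)) := by fun_prop
    exact (Lv_cont hH i).comp h1
  refine ⟨Filter.Eventually.of_forall fun s => (hs s).1.differentiableAt, hdc.continuousAt, ?_⟩
  intro i
  have hev : ∀ᶠ s in 𝓝 t, Good m ε R' (x s) (deriv x s) := by
    have hc : ContinuousAt (fun s => (x s, deriv x s)) t :=
      (hxc.prodMk hdc).continuousAt
    exact hc.eventually_mem ((good_open m ε R').mem_nhds hg)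
  have hP : ∀ s, P (x s) (deriv x s) s = p s := by
    intro s
    rw [hd]
    exact hPH _ _ _
  rw [good_Lx hY hf hLY hg.1 hg.2 i, hYx, hP]
  have h5 := (hasDerivAt_pi.1 (hs t).2) i
  refine h5.congr_of_eventuallyEq ?_
  filter_upwards [hev] with s hs'
  rw [good_Lv hLY hs'.1 hs'.2 i, hYv, hP]

/-- first exit argument. -/
lemma no_exit {ε R' t₀ T : ℝ} (hε : 0 < ε) (hR : R' < t₀ - 5 / 2) {γ : ℝ → X m}
    (hg0 : Good m ε R' (γ t₀) (deriv γ t₀))
    (hc : ∀ t ∈ Ico t₀ T, ContinuousAt γ t ∧ ContinuousAt (deriv γ) t)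
    (hstep : ∀ s, t₀ ≤ s → s < T → (∀ t ∈ Icc t₀ s, Good m ε R' (γ t) (deriv γ t)) →
      s - 5 / 2 ≤ deriv γ s 0 ∧ ∀ i : Fin m, |γ s i.succ| < ε / 8) :
    ∀ t ∈ Ico t₀ T, Good m ε R' (γ t) (deriv γ t) := by
  by_contra hcon
  push Not at hcon
  obtain ⟨s, hs, hbad⟩ := hcon
  set Bad : Set ℝ := {t | t ∈ Icc t₀ s ∧ ¬ Good m ε R' (γ t) (deriv γ t)} with hBad
  have hbb : BddBelow Bad := ⟨t₀, fun t ht => ht.1.1⟩
  have hne : Bad.Nonempty := ⟨s, ⟨hs.1, le_rfl⟩, hbad⟩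
  set τ := sInf Bad with hτ
  have hτ1 : t₀ ≤ τ := le_csInf hne fun t ht => ht.1.1
  have hτ2 : τ ≤ s := csInf_le hbb ⟨⟨hs.1, le_rfl⟩, hbad⟩
  have hτT : τ < T := lt_of_le_of_lt hτ2 hs.2
  have hlow : ∀ t, t₀ ≤ t → t < τ → Good m ε R' (γ t) (deriv γ t) := by
    intro t h1 h2
    by_contra h3
    have h4 : τ ≤ t := csInf_le hbb ⟨⟨h1, h2.le.trans hτ2⟩, h3⟩
    linarith
  obtain ⟨hc1, hc2⟩ := hc τ ⟨hτ1, hτT⟩
  -- the point `τ` is good
  have hgood : Good m ε R' (γ τ) (deriv γ τ) := by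
    rcases eq_or_lt_of_le hτ1 with h0 | h0
    · rw [← h0]; exact hg0
    · have hev : ∀ᶠ t in 𝓝[<] τ, t₀ ≤ t ∧ t < τ := by
        have h1 : Ico t₀ τ ∈ 𝓝[<] τ := Ico_mem_nhdsLT h0
        filter_upwards [h1] with t ht
        exact ht
      have hst : ∀ᶠ t in 𝓝[<] τ, t - 5 / 2 ≤ deriv γ t 0 ∧ ∀ i : Fin m, |γ t i.succ| < ε / 8 := by
        filter_upwards [hev] with t ht
        exact hstep t ht.1 (ht.2.trans hτT) fun r hr => hlow r hr.1 (lt_of_le_of_lt hr.2 ht.2)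
      constructor
      · intro i
        have h2 : Tendsto (fun t => |γ t i.succ|) (𝓝[<] τ) (𝓝 |γ τ i.succ|) := by
          have h3 : ContinuousAt (fun t => |γ t i.succ|) τ :=
            ((continuous_apply i.succ).continuousAt.comp hc1).abs
          exact h3.tendsto.mono_left nhdsWithin_le_nhds
        have h4 : |γ τ i.succ| ≤ ε / 8 :=
          le_of_tendsto h2 (hst.mono fun t ht => (ht.2 i).le)
        linarith
      · have h2 : Tendsto (fun t => deriv γ t 0 - (t - 5 / 2)) (𝓝[<] τ)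
            (𝓝 (deriv γ τ 0 - (τ - 5 / 2))) := by
          have h3 : ContinuousAt (fun t => deriv γ t 0 - (t - 5 / 2)) τ :=
            ((continuous_apply 0).continuousAt.comp hc2).sub (by fun_prop)
          exact h3.tendsto.mono_left nhdsWithin_le_nhds
        have h4 : 0 ≤ deriv γ τ 0 - (τ - 5 / 2) :=
          ge_of_tendsto h2 (hst.mono fun t ht => by linarith [ht.1])
        have h5 : deriv γ τ 0 ≤ ‖deriv γ τ‖ :=
          (le_abs_self _).trans (norm_le_pi_norm (deriv γ τ) (0 : Fin (m + 1)))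
        linarith
  -- so are the points just after `τ`
  have hev : ∀ᶠ t in 𝓝 τ, Good m ε R' (γ t) (deriv γ t) :=
    (hc1.prodMk hc2).eventually_mem ((good_open m ε R').mem_nhds hgood)
  obtain ⟨δ, hδ, hball⟩ := Metric.eventually_nhds_iff.1 hev
  obtain ⟨t, ht, htl⟩ := exists_lt_of_csInf_lt hne (show sInf Bad < τ + δ by rw [← hτ]; linarith)
  have h1 : τ ≤ t := csInf_le hbb ht
  refine ht.2 (hball ?_)
  rw [Real.dist_eq, abs_of_nonneg (by linarith)]
  linarith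

end

theorem t_MAIN (hDYN : S_DYN) (hHSM : S_HSM) (hHPOS : S_HPOS) (hHSUP : S_HSUP) (hLEG : S_LEG)
    (hGLUE : S_GLUE) (hEXI : S_EXI) : S_MAIN := by
  intro m k ε hk hε hε4 L₀ hL₀ R
  obtain ⟨c, hc, hpos⟩ := hHPOS m
  obtain ⟨hH, hHper, -⟩ := hHSM m c hc
  obtain ⟨hHs, hHb⟩ := hHSUP m c hc
  obtain ⟨Y, P, hY, hP, hYv, hYx, hHv, hPH, hYpos, hYs, hYper⟩ :=
    hLEG m (HH c) hH hpos hHs hHb hHper
  obtain ⟨L, hL, hLeq, hLs, R', cc, hLY⟩ := hGLUE m k ε hk hε hε4 L₀ hL₀ Y hY hYper hYpos hYs R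
  refine ⟨L, hL, hLeq, hLs, ?_⟩
  intro G
  obtain ⟨k0, hk0⟩ := hDYN m c |G| (ε / 8) hc (abs_nonneg G) (by linarith) (by linarith)
  set k1 : ℕ := max k0 (⌈|R'|⌉₊ + 4) with hk1
  have hk1R : R' + 4 ≤ (k1 : ℝ) := by
    have h1 : ((⌈|R'|⌉₊ + 4 : ℕ) : ℝ) ≤ (k1 : ℝ) := by exact_mod_cast le_max_right _ _
    have h2 : |R'| ≤ (⌈|R'|⌉₊ : ℝ) := Nat.le_ceil _
    push_cast at h1
    linarith [le_abs_self R']
  obtain ⟨ρ, hρ, hdyn⟩ := hk0 k1 (le_max_left _ _)
  set t₀ : ℝ := (k1 : ℝ) + 1 / 2 with ht₀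
  have hRt : R' < t₀ - 5 / 2 := by rw [ht₀]; linarith
  -- existence of global solutions of the Hamiltonian system, and their behaviour
  have hsol : ∀ f : X m → ℝ → ℝ, ContDiff ℝ 2 (fun q : X m × ℝ => f q.1 q.2) →
      (∀ i x t, |Df f i x t| ≤ |G|) → ∀ x0 p0 : X m, Init k1 ρ x0 p0 →
      ∃ x p : ℝ → X m, x t₀ = x0 ∧ p t₀ = p0 ∧
        (∀ t, HasDerivAt x (fun i => Lv (HH c) i (x t) (p t) t) t ∧
          HasDerivAt p (fun i => -Lx (HH c) i (x t) (p t) t + Df f i (x t) t) t) ∧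
        ∀ t, t₀ ≤ t → t - 5 / 2 ≤ deriv x t 0 ∧ ∀ i : Fin m, |x t i.succ| < ε / 8 := by
    intro f hf hG x0 p0 hI
    obtain ⟨x, p, hx, hp, hs⟩ := hEXI m c |G| hc f hf hG t₀ x0 p0
    refine ⟨x, p, hx, hp, hs, ?_⟩
    intro t ht
    have hham : HamSol c |G| x p (fun t i => Df f i (x t) t) (Icc t₀ t) :=
      toHam hHSM hc fun s _ => ⟨(hs s).1, (hs s).2, fun i => hG i _ s⟩
    have h1 := hdyn t ht x p _ hham (by rw [hx, hp]; exact hI) t ⟨ht, le_rfl⟩
    refine ⟨?_, h1.2⟩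
    rw [(hs t).1.deriv]
    show t - 5 / 2 ≤ Lv (HH c) 0 (x t) (p t) t
    rw [((hHSM m c hc).2.2 (x t) (p t) t).1]
    exact h1.1
  have hgoodR : ∀ {v : X m} {t : ℝ}, t₀ ≤ t → t - 5 / 2 ≤ v 0 → R' < ‖v‖ := by
    intro v t h1 h2
    have h3 : v 0 ≤ ‖v‖ := (le_abs_self _).trans (norm_le_pi_norm v (0 : Fin (m + 1)))
    linarith
  set W : Set (X m × X m) := {q | q.1 ∈ Tube m (ε / 4) ∧ R' < ‖q.2‖ ∧
    |q.1 0 - k1 * (k1 + 1 / 2)| < 1 / 1000 ∧ |P q.1 q.2 t₀ 0 - 3 ^ k1| < 3 ^ k1 / 1000 ∧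
    ∀ i : Fin m, |q.1 i.succ| < ρ ∧ |P q.1 q.2 t₀ i.succ| < ρ} with hW
  have hPc : Continuous (fun q : X m × X m => P q.1 q.2 t₀) := by
    have h1 : Continuous (fun q : X m × X m => ((q.1, q.2, t₀) : X m × X m × ℝ)) := by fun_prop
    exact hP.continuous.comp h1
  have hPci : ∀ i, Continuous (fun q : X m × X m => P q.1 q.2 t₀ i) := fun i =>
    (continuous_apply i).comp hPc
  have hx0c : Continuous (fun q : X m × X m => |q.1 0 - (k1 : ℝ) * (k1 + 1 / 2)|) :=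
    (((continuous_apply (0 : Fin (m + 1))).comp continuous_fst).sub continuous_const).abs
  refine ⟨t₀, W, ?_, ?_, fun q hq => hq.1, ?_⟩
  · have hset : W = {q | q.1 ∈ Tube m (ε / 4)} ∩ ({q | R' < ‖q.2‖} ∩
        ({q | |q.1 0 - (k1 : ℝ) * (k1 + 1 / 2)| < 1 / 1000} ∩
        ({q | |P q.1 q.2 t₀ 0 - 3 ^ k1| < 3 ^ k1 / 1000} ∩
        ⋂ i : Fin m, {q | |q.1 i.succ| < ρ ∧ |P q.1 q.2 t₀ i.succ| < ρ}))) := by
      ext q; simp [hW]
    rw [hset]
    refine ((tube_open m (ε / 4)).preimage continuous_fst).inter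
      ((isOpen_lt continuous_const continuous_snd.norm).inter
      ((isOpen_lt hx0c continuous_const).inter
      ((isOpen_lt (((hPci 0).sub continuous_const).abs) continuous_const).inter
      (isOpen_iInter_of_finite fun i => ?_))))
    have hxi : Continuous (fun q : X m × X m => |q.1 i.succ|) :=
      ((continuous_apply i.succ).comp continuous_fst).abs
    exact (isOpen_lt hxi continuous_const).inter
      (isOpen_lt (hPci i.succ).abs continuous_const)
  · -- a point of `W`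
    set x1 : X m := Fin.cons ((k1 : ℝ) * (k1 + 1 / 2)) 0 with hx1
    set p1 : X m := Fin.cons ((3 : ℝ) ^ k1) 0 with hp1
    have e1 : x1 0 = (k1 : ℝ) * (k1 + 1 / 2) := rfl
    have e2 : ∀ i : Fin m, x1 i.succ = 0 := fun i => rfl
    have e3 : p1 0 = (3 : ℝ) ^ k1 := rfl
    have e4 : ∀ i : Fin m, p1 i.succ = 0 := fun i => rfl
    have hI : Init k1 ρ x1 p1 := by
      refine ⟨by rw [e1]; simp, by rw [e3, sub_self, abs_zero]; positivity, fun i => ?_⟩
      rw [e2, e4, abs_zero]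
      exact ⟨hρ.le, hρ.le⟩
    have hz : ∀ i x t, |Df (fun (_ : X m) (_ : ℝ) => (0 : ℝ)) i x t| ≤ |G| := by
      intro i x t
      simp [Df]
    obtain ⟨x, p, hx, hp, hs, hb⟩ := hsol (fun _ _ => 0) contDiff_const hz x1 p1 hI
    have h1 := (hb t₀ le_rfl).1
    have h2 : deriv x t₀ = fun i => Lv (HH c) i x1 p1 t₀ := by rw [(hs t₀).1.deriv, hx, hp]
    refine ⟨(x1, deriv x t₀), ?_, ?_, ?_, ?_, ?_⟩
    · intro i
      show |x1 i.succ| < ε / 4
      rw [e2, abs_zero]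
      positivity
    · exact hgoodR le_rfl h1
    · show |x1 0 - _| < _
      rw [e1]; simp
    · show |P x1 (deriv x t₀) t₀ 0 - _| < _
      rw [h2, hPH, e3, sub_self, abs_zero]
      positivity
    · intro i
      show |x1 i.succ| < ρ ∧ |P x1 (deriv x t₀) t₀ i.succ| < ρ
      rw [h2, hPH, e2, e4, abs_zero]
      exact ⟨hρ, hρ⟩
  · intro f hf hG
    have hG' : ∀ i x t, |Df f i x t| ≤ |G| := fun i x t => (hG i x t).trans (le_abs_self G)
    have hInit : ∀ q ∈ W, Init k1 ρ q.1 (P q.1 q.2 t₀) := by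
      intro q hq
      obtain ⟨-, -, h3, h4, h5⟩ := hq
      exact ⟨h3.le, h4.le, fun i => ⟨(h5 i).1.le, (h5 i).2.le⟩⟩
    constructor
    · intro q hq
      obtain ⟨x, p, hx, hp, hs, hb⟩ := hsol f hf hG' q.1 (P q.1 q.2 t₀) (hInit q hq)
      refine ⟨x, hx, ?_, ?_⟩
      · rw [(hs t₀).1.deriv, hx, hp]
        exact funext fun i => hHv _ _ _ i
      · intro t ht
        obtain ⟨h1, h2⟩ := hb t ht
        have h3 : x t ∈ Tube m (ε / 4) := fun i => (h2 i).trans (by linarith)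
        exact ⟨el_of_ham hH hY hYv hYx hPH hLY hf hs ⟨h3, hgoodR ht h1⟩, h3, h1⟩
    · intro γ T hγW hγ
      have hcont : ∀ t ∈ Ico t₀ T, ContinuousAt γ t ∧ ContinuousAt (deriv γ) t := by
        intro t ht
        obtain ⟨-, h1, h2, -⟩ := hγ t ht
        exact ⟨(h1.self_of_nhds).continuousAt, h2⟩
      have hstep : ∀ s, t₀ ≤ s → s < T → (∀ t ∈ Icc t₀ s, Good m ε R' (γ t) (deriv γ t)) →
          s - 5 / 2 ≤ deriv γ s 0 ∧ ∀ i : Fin m, |γ s i.succ| < ε / 8 := by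
        intro s h1 h2 h3
        have hham := ham_of_el (I := Icc t₀ s) hHSM hc hY hYv hYx hHv hLY hf hG'
          (fun t ht => ⟨(hγ t ⟨ht.1, lt_of_le_of_lt ht.2 h2⟩).2, h3 t ht⟩)
        have h4 := hdyn s h1 γ _ _ hham (hInit _ hγW) s ⟨h1, le_rfl⟩
        refine ⟨?_, h4.2⟩
        have h5 := ((hHSM m c hc).2.2 (γ s) (P (γ s) (deriv γ s) s) s).1
        have h6 := h4.1
        rw [← h5, hHv] at h6
        exact h6
      have hall := no_exit hε hRt ⟨hγW.1, hγW.2.1⟩ hcont hstep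
      intro t ht
      refine ⟨(hall t ht).1, ?_⟩
      exact (hstep t ht.1 ht.2 fun s hs => hall s ⟨hs.1, lt_of_le_of_lt hs.2 ht.2⟩).1

end Pool.Agent.Run7.h506.TA
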